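import Mathlib
import Pool.Agent.H29.TF.Defs
import Pool.Agent.H29.TF.Heat

/-!
# The kernels `vh`, `kap`, `Ch`
-/

open MeasureTheory Real Set Pool.Agent.H29.TF

namespace Pool.Agent.H82.TF

lemma finrank_E3 : Module.finrank ℝ E3 = 3 := by simp [E3]

lemma hk_zero_eq {t : ℝ} (ht : 0 < t) :
    hk t (0 : E3) = (4 * π) ^ (-(3 : ℝ) / 2) * t ^ (-(3 : ℝ) / 2) := by
  unfold hk
  rw [finrank_E3, norm_zero]
  have : (4 * π * t) ^ (-((3 : ℕ) : ℝ) / 2) = (4 * π) ^ (-(3 : ℝ) / 2) * t ^ (-(3 : ℝ) / 2) := by
    rw [Real.mul_rpow (by positivity) ht.le]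
    norm_num
  rw [this]
  simp

lemma measurable_hk_fst (x : E3) : Measurable (fun t : ℝ => hk t x) :=
  measurable_hk_uncurry.comp (measurable_id.prodMk measurable_const)

lemma integrableOn_hk_zero {h : ℝ} (hh : 0 < h) :
    IntegrableOn (fun t : ℝ => hk t (0 : E3)) (Ioi h) := by
  have h1 : IntegrableOn (fun t : ℝ => (4 * π) ^ (-(3 : ℝ) / 2) * t ^ (-(3 : ℝ) / 2)) (Ioi h) :=
    (integrableOn_Ioi_rpow_of_lt (show -(3 : ℝ) / 2 < -1 by norm_num) hh).const_mul _
  refine h1.congr_fun (fun t ht => ?_) measurableSet_Ioi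
  exact (hk_zero_eq (hh.trans ht)).symm

lemma integrableOn_hk {h : ℝ} (hh : 0 < h) (x : E3) :
    IntegrableOn (fun t : ℝ => hk t x) (Ioi h) := by
  refine (integrableOn_hk_zero hh).mono' (measurable_hk_fst x).aestronglyMeasurable ?_
  refine (ae_restrict_iff' measurableSet_Ioi).mpr (Filter.Eventually.of_forall fun t ht => ?_)
  have ht0 : 0 < t := hh.trans ht
  rw [Real.norm_of_nonneg (hk_nonneg ht0.le _)]
  exact hk_le ht0 x

lemma vh_nonneg {h : ℝ} (hh : 0 < h) (x : E3) : 0 ≤ vh h x := by
  unfold vh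
  have : 0 ≤ ∫ t in Ioi h, hk t x := setIntegral_nonneg measurableSet_Ioi fun t ht =>
    hk_nonneg (hh.trans ht).le _
  positivity

lemma vh_le_zero {h : ℝ} (hh : 0 < h) (x : E3) : vh h x ≤ vh h 0 := by
  unfold vh
  have : ∫ t in Ioi h, hk t x ≤ ∫ t in Ioi h, hk t (0 : E3) :=
    setIntegral_mono_on (integrableOn_hk hh x) (integrableOn_hk_zero hh) measurableSet_Ioi
      fun t ht => hk_le (hh.trans ht) x
  gcongr

lemma vh_zero_eq {h : ℝ} (hh : 0 < h) :
    vh h 0 = 4 * π * ((4 * π) ^ (-(3 : ℝ) / 2) * (2 * h ^ (-(1 : ℝ) / 2))) := by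
  unfold vh
  have h1 : ∫ t in Ioi h, hk t (0 : E3) =
      ∫ t in Ioi h, (4 * π) ^ (-(3 : ℝ) / 2) * t ^ (-(3 : ℝ) / 2) :=
    setIntegral_congr_fun measurableSet_Ioi fun t ht => hk_zero_eq (hh.trans ht)
  rw [h1, integral_const_mul, integral_Ioi_rpow_of_lt (by norm_num) hh]
  norm_num
  left
  ring

lemma tendsto_vh_zero : Filter.Tendsto (fun h : ℝ => vh h 0) Filter.atTop (nhds 0) := by
  have h1 : Filter.Tendsto (fun h : ℝ => 4 * π * ((4 * π) ^ (-(3 : ℝ) / 2) *
      (2 * h ^ (-(1 / 2) : ℝ)))) Filter.atTop (nhds (4 * π * ((4 * π) ^ (-(3 : ℝ) / 2) *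
      (2 * 0)))) :=
    (((tendsto_rpow_neg_atTop (show (0 : ℝ) < 1 / 2 by norm_num)).const_mul 2).const_mul _).const_mul
      _
  rw [mul_zero, mul_zero, mul_zero] at h1
  refine h1.congr' ?_
  filter_upwards [Filter.eventually_gt_atTop 0] with h hh
  rw [vh_zero_eq hh]
  norm_num

lemma measurable_hk_sub_uncurry (Q : E3) :
    Measurable (fun p : E3 × ℝ => hk p.2 (p.1 - Q)) :=
  measurable_hk_uncurry.comp (measurable_snd.prodMk (measurable_fst.sub_const Q))

lemma measurable_vh (h : ℝ) : Measurable (vh h) := by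
  unfold vh
  refine Measurable.const_mul ?_ _
  have h1 : StronglyMeasurable (fun p : E3 × ℝ => hk p.2 p.1) :=
    (measurable_hk_uncurry.comp measurable_swap).stronglyMeasurable
  exact (h1.integral_prod_right (ν := volume.restrict (Ioi h))).measurable

lemma measurable_kap (h : ℝ) : Measurable (kap h) := by
  unfold kap
  refine Measurable.const_mul ?_ _
  have h1 : StronglyMeasurable (fun p : E3 × ℝ => hk p.2 p.1) :=
    (measurable_hk_uncurry.comp measurable_swap).stronglyMeasurable
  exact (h1.integral_prod_right (ν := volume.restrict (Ioc h (2 * h)))).measurable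

lemma kap_nonneg {h : ℝ} (hh : 0 < h) (x : E3) : 0 ≤ kap h x := by
  unfold kap
  have : 0 ≤ ∫ t in Ioc h (2 * h), hk t x := setIntegral_nonneg measurableSet_Ioc fun t ht =>
    hk_nonneg (hh.trans ht.1).le _
  positivity

lemma vh_eq_kap_add {h : ℝ} (hh : 0 < h) (x : E3) : vh h x = kap h x + vh (2 * h) x := by
  unfold vh kap
  have h1 : Ioi h = Ioc h (2 * h) ∪ Ioi (2 * h) := (Ioc_union_Ioi_eq_Ioi (by linarith)).symm
  rw [h1, setIntegral_union (Ioc_disjoint_Ioi le_rfl) measurableSet_Ioi
    ((integrableOn_hk hh x).mono_set Ioc_subset_Ioi_self) (integrableOn_hk (by linarith) x)]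
  ring

lemma shift_Ioi (f : ℝ → ℝ) (a b : ℝ) :
    ∫ t in Ioi a, f (b + t) = ∫ t in Ioi (b + a), f t := by
  rw [← integral_indicator measurableSet_Ioi, ← integral_indicator measurableSet_Ioi,
    ← integral_add_left_eq_self (fun t => (Ioi (b + a)).indicator f t) b]
  congr 1
  ext t
  simp only [indicator, mem_Ioi, add_lt_add_iff_left]

/-- The heat semigroup acts on the truncated Coulomb potential. -/
lemma P_vh {h h' : ℝ} (hh : 0 < h) (hh' : 0 < h') (Q x : E3) :
    P h (fun y => vh h' (y - Q)) x = vh (h + h') (x - Q) := by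
  unfold P vh
  have hm : AEStronglyMeasurable (fun p : E3 × ℝ => hk h (x - p.1) * hk p.2 (p.1 - Q))
      (volume.prod (volume.restrict (Ioi h'))) := by
    refine Measurable.aestronglyMeasurable ?_
    refine Measurable.mul ?_ (measurable_hk_sub_uncurry Q)
    exact (continuous_hk h).measurable.comp (measurable_const.sub measurable_fst)
  have hint : Integrable (fun p : E3 × ℝ => hk h (x - p.1) * hk p.2 (p.1 - Q))
      (volume.prod (volume.restrict (Ioi h'))) := by
    rw [integrable_prod_iff' hm]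
    constructor
    · refine (ae_restrict_iff' measurableSet_Ioi).mpr (Filter.Eventually.of_forall fun t ht => ?_)
      exact integrable_hk_mul' hh ((integrable_hk (hh'.trans ht)).comp_sub_right Q) x
    · have h1 : IntegrableOn (fun t => hk (h + t) (x - Q)) (Ioi h') := by
        have h2 := integrableOn_hk (show 0 < h + h' by linarith) (x - Q)
        have h3 := (integrable_indicator_iff measurableSet_Ioi).mpr h2
        have h4 := h3.comp_add_left h
        refine (integrable_indicator_iff measurableSet_Ioi).mp (h4.congr ?_)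
        refine Filter.Eventually.of_forall fun t => ?_
        simp only [indicator, mem_Ioi, add_lt_add_iff_left]
      refine h1.congr_fun (fun t ht => ?_) measurableSet_Ioi
      simp only
      rw [← semigroup_hk hh (hh'.trans ht)]
      refine integral_congr_ae (Filter.Eventually.of_forall fun y => ?_)
      simp only [norm_mul]
      rw [Real.norm_of_nonneg (hk_nonneg hh.le _), Real.norm_of_nonneg (hk_nonneg (hh'.trans ht).le _)]
  calc ∫ y, hk h (x - y) * (4 * π * ∫ t in Ioi h', hk t (y - Q))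
      = 4 * π * ∫ y, ∫ t in Ioi h', hk h (x - y) * hk t (y - Q) := by
        rw [← integral_const_mul]
        congr 1; ext y
        rw [integral_const_mul]; ring
    _ = 4 * π * ∫ t in Ioi h', ∫ y, hk h (x - y) * hk t (y - Q) := by
        rw [integral_integral_swap hint]
    _ = 4 * π * ∫ t in Ioi h', hk (h + t) (x - Q) := by
        congr 1
        refine setIntegral_congr_fun measurableSet_Ioi fun t ht => ?_
        exact semigroup_hk hh (hh'.trans ht) x Q
    _ = _ := by rw [shift_Ioi (fun t => hk t (x - Q))]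

lemma integrable_kap {h : ℝ} (hh : 0 < h) : Integrable (kap h) ∧ ∫ x, kap h x = 4 * π * h := by
  have hm : AEStronglyMeasurable (fun p : E3 × ℝ => hk p.2 p.1)
      (volume.prod (volume.restrict (Ioc h (2 * h)))) :=
    (measurable_hk_uncurry.comp measurable_swap).aestronglyMeasurable
  have hnorm : ∀ t ∈ Ioc h (2 * h), ∫ x : E3, ‖hk t x‖ = 1 := by
    intro t ht
    have ht0 : 0 < t := hh.trans ht.1
    rw [← integral_hk (V := E3) ht0]
    congr 1; ext x
    exact Real.norm_of_nonneg (hk_nonneg ht0.le _)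
  have hint : Integrable (fun p : E3 × ℝ => hk p.2 p.1)
      (volume.prod (volume.restrict (Ioc h (2 * h)))) := by
    rw [integrable_prod_iff' hm]
    constructor
    · refine (ae_restrict_iff' measurableSet_Ioc).mpr (Filter.Eventually.of_forall fun t ht => ?_)
      exact integrable_hk (hh.trans ht.1)
    · have h1 : IntegrableOn (fun _ : ℝ => (1 : ℝ)) (Ioc h (2 * h)) :=
        integrableOn_const (by simp)
      refine h1.congr_fun (fun t ht => ?_) measurableSet_Ioc
      exact (hnorm t ht).symm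
  constructor
  · unfold kap
    exact hint.integral_prod_left.const_mul _
  · unfold kap
    rw [integral_const_mul, integral_integral_swap hint]
    have : ∫ t in Ioc h (2 * h), ∫ x : E3, hk t x = ∫ t in Ioc h (2 * h), (1 : ℝ) :=
      setIntegral_congr_fun measurableSet_Ioc fun t ht => integral_hk (hh.trans ht.1)
    rw [this]
    simp
    rw [max_eq_left (by linarith)]
    ring

end Pool.Agent.H82.TF
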