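import Mathlib
import Pool.Agent.H82.TF.Ker

/-!
# The discretised Coulomb kernel `Ch`
-/

open MeasureTheory Real Set Pool.Agent.H29.TF

namespace Pool.Agent.H82.TF

lemma tpos {h : ℝ} (hh : 0 < h) (n : ℕ) : 0 < ((n : ℝ) + 1) * h := by positivity

lemma summable_hk_zero {h : ℝ} (hh : 0 < h) :
    Summable (fun n : ℕ => hk (((n : ℝ) + 1) * h) (0 : E3)) := by
  have h1 : Summable (fun n : ℕ => ((n : ℝ) + 1) ^ (-(3 : ℝ) / 2)) := by
    have h2 := (summable_nat_add_iff 1).mpr
      (Real.summable_nat_rpow (p := -(3 : ℝ) / 2) |>.mpr (by norm_num))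
    refine h2.congr fun n => ?_
    push_cast
    rfl
  refine (h1.mul_left ((4 * π) ^ (-(3 : ℝ) / 2) * h ^ (-(3 : ℝ) / 2))).congr fun n => ?_
  rw [hk_zero_eq (tpos hh n), Real.mul_rpow (by positivity) hh.le]
  ring

lemma summable_hk {h : ℝ} (hh : 0 < h) (x : E3) :
    Summable (fun n : ℕ => hk (((n : ℝ) + 1) * h) x) :=
  (summable_hk_zero hh).of_nonneg_of_le (fun n => hk_nonneg (tpos hh n).le _)
    (fun n => hk_le (tpos hh n) x)

lemma Ch_nonneg {h : ℝ} (hh : 0 < h) (x : E3) : 0 ≤ Ch h x := by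
  unfold Ch
  have : 0 ≤ ∑' n : ℕ, hk (((n : ℝ) + 1) * h) x := tsum_nonneg fun n => hk_nonneg (tpos hh n).le _
  positivity

lemma Ch_le {h : ℝ} (hh : 0 < h) (x : E3) : Ch h x ≤ Ch h 0 := by
  unfold Ch
  have : ∑' n : ℕ, hk (((n : ℝ) + 1) * h) x ≤ ∑' n : ℕ, hk (((n : ℝ) + 1) * h) (0 : E3) :=
    (summable_hk hh x).tsum_le_tsum (fun n => hk_le (tpos hh n) x) (summable_hk_zero hh)
  gcongr

lemma Ch_neg (h : ℝ) (x : E3) : Ch h (-x) = Ch h x := by
  unfold Ch
  congr 1
  exact tsum_congr fun n => hk_neg _ _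

lemma measurable_Ch {h : ℝ} (hh : 0 < h) : Measurable (Ch h) := by
  unfold Ch
  refine Measurable.const_mul ?_ _
  have : (fun x : E3 => ∑' n : ℕ, hk (((n : ℝ) + 1) * h) x) =
      fun x => (∑' n : ℕ, ENNReal.ofReal (hk (((n : ℝ) + 1) * h) x)).toReal := by
    ext x
    rw [← ENNReal.ofReal_tsum_of_nonneg (fun n => hk_nonneg (tpos hh n).le _) (summable_hk hh x),
      ENNReal.toReal_ofReal (tsum_nonneg fun n => hk_nonneg (tpos hh n).le _)]
  rw [this]
  refine ENNReal.measurable_toReal.comp (Measurable.tsum fun n => ?_)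
  exact ENNReal.measurable_ofReal.comp (continuous_hk _).measurable

/-- Convolution with the kernel. -/
noncomputable def Cf (h : ℝ) (f : E3 → ℝ) (x : E3) : ℝ := ∫ y, Ch h (x - y) * f y

lemma hasSum_Cf {h : ℝ} (hh : 0 < h) {f : E3 → ℝ} (hf : Integrable f) (x : E3) :
    HasSum (fun n : ℕ => 4 * π * h * P (((n : ℝ) + 1) * h) f x) (Cf h f x) := by
  have h1 := hasSum_integral_of_summable_integral_norm
    (F := fun (n : ℕ) (y : E3) => hk (((n : ℝ) + 1) * h) (x - y) * f y)
    (fun n => integrable_hk_mul' (tpos hh n) hf x) (by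
      refine Summable.of_nonneg_of_le (fun n => integral_nonneg fun y => norm_nonneg _)
        (fun n => ?_) ((summable_hk_zero hh).mul_right (∫ y, ‖f y‖))
      rw [← integral_const_mul]
      refine integral_mono (integrable_hk_mul' (tpos hh n) hf x).norm (hf.norm.const_mul _)
        fun y => ?_
      simp only [norm_mul]
      rw [Real.norm_of_nonneg (hk_nonneg (tpos hh n).le _)]
      exact mul_le_mul_of_nonneg_right (hk_le (tpos hh n) _) (norm_nonneg _))
  have h2 := h1.mul_left (4 * π * h)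
  have h3 : 4 * π * h * ∫ y, ∑' n : ℕ, hk (((n : ℝ) + 1) * h) (x - y) * f y = Cf h f x := by
    unfold Cf Ch
    rw [← integral_const_mul]
    congr 1; ext y
    rw [tsum_mul_right]; ring
  rw [← h3]
  exact h2

lemma integrable_Ch_prod {h : ℝ} (hh : 0 < h) {f g : E3 → ℝ} (hf : Integrable f)
    (hg : Integrable g) : Integrable (fun p : E3 × E3 => f p.1 * g p.2 * Ch h (p.1 - p.2))
      (volume.prod volume) := by
  refine (hf.mul_prod hg).mul_bdd (c := Ch h 0) ?_ (Filter.Eventually.of_forall fun p => ?_)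
  · exact ((measurable_Ch hh).comp (measurable_fst.sub measurable_snd)).aestronglyMeasurable
  · rw [Real.norm_of_nonneg (Ch_nonneg hh _)]
    exact Ch_le hh _

lemma integrable_mul_Cf {h : ℝ} (hh : 0 < h) {f g : E3 → ℝ} (hf : Integrable f)
    (hg : Integrable g) : Integrable (fun x => f x * Cf h g x) := by
  have := (integrable_Ch_prod hh hf hg).integral_prod_left
  refine this.congr (Filter.Eventually.of_forall fun x => ?_)
  simp only
  unfold Cf
  rw [← integral_const_mul]
  congr 1; ext y; ring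

lemma integral_integral_Ch (h : ℝ) (f g : E3 → ℝ) :
    ∫ x, ∫ y, f x * g y * Ch h (x - y) = ∫ x, f x * Cf h g x := by
  congr 1; ext x
  unfold Cf
  rw [← integral_const_mul]
  congr 1; ext y; ring

lemma Cf_symm {h : ℝ} (hh : 0 < h) {f g : E3 → ℝ} (hf : Integrable f) (hg : Integrable g) :
    ∫ x, f x * Cf h g x = ∫ x, g x * Cf h f x := by
  rw [← integral_integral_Ch, ← integral_integral_Ch,
    integral_integral_swap (integrable_Ch_prod hh hf hg)]
  congr 1; ext y
  congr 1; ext x
  rw [← Ch_neg, neg_sub]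
  ring

lemma integrable_Ch_mul {h : ℝ} (hh : 0 < h) {f : E3 → ℝ} (hf : Integrable f) (x : E3) :
    Integrable (fun y => Ch h (x - y) * f y) := by
  refine hf.bdd_mul (c := Ch h 0) ?_ (Filter.Eventually.of_forall fun y => ?_)
  · exact ((measurable_Ch hh).comp (measurable_const.sub measurable_id)).aestronglyMeasurable
  · rw [Real.norm_of_nonneg (Ch_nonneg hh _)]
    exact Ch_le hh _

lemma Cf_sub {h : ℝ} (hh : 0 < h) {f g : E3 → ℝ} (hf : Integrable f) (hg : Integrable g)
    (x : E3) : Cf h (fun y => f y - g y) x = Cf h f x - Cf h g x := by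
  unfold Cf
  rw [← integral_sub (integrable_Ch_mul hh hf x) (integrable_Ch_mul hh hg x)]
  congr 1; ext y; ring

/-- The semigroup property for integrable functions. -/
lemma P_P_int {s t : ℝ} (hs : 0 < s) (ht : 0 < t) {f : E3 → ℝ} (hf : Integrable f) (x : E3) :
    P s (P t f) x = P (s + t) f x := by
  unfold P
  have h1 : AEStronglyMeasurable (fun p : E3 × E3 => hk s (x - p.1) * (hk t (p.1 - p.2) * f p.2))
      (volume.prod volume) := by
    apply AEStronglyMeasurable.mul
    · exact Continuous.aestronglyMeasurable (by fun_prop)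
    · exact aesm_hk_prod t hf.aestronglyMeasurable
  have hint : Integrable (fun p : E3 × E3 => hk s (x - p.1) * (hk t (p.1 - p.2) * f p.2))
      (volume.prod volume) := by
    refine (integrable_hk_prod ht hf).bdd_mul (c := hk s (0 : E3))
      (Continuous.aestronglyMeasurable (by fun_prop)) (Filter.Eventually.of_forall fun p => ?_)
    rw [Real.norm_of_nonneg (hk_nonneg hs.le _)]
    exact hk_le hs _
  calc ∫ w, hk s (x - w) * ∫ y, hk t (w - y) * f y
      = ∫ w, ∫ y, hk s (x - w) * (hk t (w - y) * f y) := by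
        congr 1; ext w; rw [integral_const_mul]
    _ = ∫ y, ∫ w, hk s (x - w) * (hk t (w - y) * f y) := integral_integral_swap hint
    _ = ∫ y, hk (s + t) (x - y) * f y := by
        congr 1; ext y
        rw [← semigroup_hk hs ht, ← integral_mul_const]
        congr 1; ext w; ring

lemma abs_P_le_int {t : ℝ} (ht : 0 < t) {f : E3 → ℝ} (hf : Integrable f) (x : E3) :
    |P t f x| ≤ hk t (0 : E3) * ∫ y, ‖f y‖ := by
  unfold P
  rw [← Real.norm_eq_abs, ← integral_const_mul]
  refine norm_integral_le_of_norm_le (hf.norm.const_mul _) (Filter.Eventually.of_forall fun y => ?_)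
  rw [norm_mul, Real.norm_of_nonneg (hk_nonneg ht.le _)]
  exact mul_le_mul_of_nonneg_right (hk_le ht _) (norm_nonneg _)

lemma integral_mul_P_nonneg {t : ℝ} (ht : 0 < t) {f : E3 → ℝ} (hf : Integrable f) :
    0 ≤ ∫ x, f x * P t f x := by
  have h2 : 0 < t / 2 := by positivity
  have h3 : ∀ x, P t f x = P (t / 2) (P (t / 2) f) x := by
    intro x
    rw [P_P_int h2 h2 hf, add_halves]
  have h4 : ∫ x, f x * P t f x = ∫ x, P (t / 2) (P (t / 2) f) x * f x := by
    congr 1; ext x
    rw [h3, mul_comm]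
  rw [h4, ← P_selfadj h2 hf (g := P (t / 2) f) (aesm_P hf.aestronglyMeasurable)
    (fun x => abs_P_le_int h2 hf x)]
  exact integral_nonneg fun x => mul_self_nonneg _

/-- The quadratic form is nonnegative. -/
lemma Cf_form_nonneg {h : ℝ} (hh : 0 < h) {f : E3 → ℝ} (hf : Integrable f) :
    0 ≤ ∫ x, f x * Cf h f x := by
  have h1 := hasSum_integral_of_summable_integral_norm
    (F := fun (n : ℕ) (x : E3) => f x * (4 * π * h * P (((n : ℝ) + 1) * h) f x))
    (μ := volume) (fun n => by
      refine hf.mul_bdd (c := 4 * π * h * (hk (((n : ℝ) + 1) * h) (0 : E3) * ∫ y, ‖f y‖))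
        ((aesm_P hf.aestronglyMeasurable).const_mul _) (Filter.Eventually.of_forall fun x => ?_)
      rw [norm_mul, Real.norm_of_nonneg (by positivity : 0 ≤ 4 * π * h)]
      gcongr
      exact abs_P_le_int (tpos hh n) hf x) (by
      refine Summable.of_nonneg_of_le (fun n => integral_nonneg fun y => norm_nonneg _)
        (fun n => ?_) ((summable_hk_zero hh).mul_right
          (4 * π * h * (∫ y, ‖f y‖) * ∫ y, ‖f y‖))
      have e1 : hk (((n : ℝ) + 1) * h) (0 : E3) * (4 * π * h * (∫ y, ‖f y‖) * ∫ y, ‖f y‖) =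
          ∫ x, ‖f x‖ * (4 * π * h * (hk (((n : ℝ) + 1) * h) (0 : E3) * ∫ y, ‖f y‖)) := by
        rw [integral_mul_const]; ring
      rw [e1]
      refine integral_mono_of_nonneg (Filter.Eventually.of_forall fun x => norm_nonneg _)
        (hf.norm.mul_const _) (Filter.Eventually.of_forall fun x => ?_)
      beta_reduce
      rw [norm_mul, norm_mul (4 * π * h), Real.norm_of_nonneg (by positivity : 0 ≤ 4 * π * h)]
      gcongr
      exact abs_P_le_int (tpos hh n) hf x)
  have h2 : ∫ x, ∑' n : ℕ, f x * (4 * π * h * P (((n : ℝ) + 1) * h) f x) =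
      ∫ x, f x * Cf h f x := by
    congr 1; ext x
    rw [tsum_mul_left, (hasSum_Cf hh hf x).tsum_eq]
  rw [← h2]
  refine h1.nonneg fun n => ?_
  have h3 : ∫ x, f x * (4 * π * h * P (((n : ℝ) + 1) * h) f x) =
      4 * π * h * ∫ x, f x * P (((n : ℝ) + 1) * h) f x := by
    rw [← integral_const_mul]
    congr 1; ext x; ring
  simp only
  rw [h3]
  have := integral_mul_P_nonneg (tpos hh n) hf
  positivity

end Pool.Agent.H82.TF
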