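import Pool.Agent.H82.TF.FubT

/-!
# Sub-part I.2: monotonicity of `∫ uIt` under dilation, C² nonlinearity
-/

open MeasureTheory Real Set Pool.Agent.H29.TF Filter Topology

namespace Pool.Agent.H82.TF

variable {k : ℕ}

lemma GC2.nonlin {Γ Γ1 Γ2 : ℝ → ℝ} {μ : ℝ} (hG : GC2 Γ Γ1 Γ2 μ) (hμ : 0 < μ) : Nonlin Γ where
  mono := monotone_of_hasDerivAt_nonneg hG.d1 hG.n1
  lip := by
    intro a b hab
    have h1 : Monotone fun u => u - Γ u :=
      monotone_of_hasDerivAt_nonneg (f' := fun u => 1 - Γ1 u)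
        (fun u => (hasDerivAt_id u).sub (hG.d1 u)) (fun u => by have := hG.l1 u; simp only [Pi.zero_apply]; linarith)
    have := h1 hab
    simp only at this
    linarith
  zero := hG.z0 0 hμ.le

lemma GC2.convex {Γ Γ1 Γ2 : ℝ → ℝ} {μ : ℝ} (hG : GC2 Γ Γ1 Γ2 μ) (a b : ℝ) :
    (1 - Γ1 b) * (b - a) ≤ (b - Γ b) - (a - Γ a) := by
  have hm : Monotone Γ1 := monotone_of_hasDerivAt_nonneg hG.d2 hG.n2
  have hc : Continuous Γ := continuous_iff_continuousAt.2 fun x => (hG.d1 x).continuousAt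
  have key : Γ b - Γ a ≤ Γ1 b * (b - a) := by
    rcases lt_trichotomy a b with h | h | h
    · obtain ⟨c, hc1, hc2⟩ := exists_hasDerivAt_eq_slope Γ Γ1 h hc.continuousOn
        (fun x _ => hG.d1 x)
      have h1 : Γ b - Γ a = Γ1 c * (b - a) := by
        rw [hc2]; field_simp [sub_ne_zero.2 h.ne']
      rw [h1]
      exact mul_le_mul_of_nonneg_right (hm hc1.2.le) (by linarith)
    · subst h; simp
    · obtain ⟨c, hc1, hc2⟩ := exists_hasDerivAt_eq_slope Γ Γ1 h hc.continuousOn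
        (fun x _ => hG.d1 x)
      have h1 : Γ a - Γ b = Γ1 c * (a - b) := by
        rw [hc2]; field_simp [sub_ne_zero.2 h.ne']
      have h2 : Γ1 b * (a - b) ≤ Γ1 c * (a - b) :=
        mul_le_mul_of_nonneg_right (hm hc1.1.le) (by linarith)
      nlinarith
  nlinarith

section step1

variable {Γ Γ1 Γ2 : ℝ → ℝ} {μ : ℝ} (hG : GC2 Γ Γ1 Γ2 μ) (hμ : 0 < μ)
    {h : ℝ} (hh : 0 < h) {z : Fin k → ℝ} (hz : ∀ i, 0 < z i) {n : ℕ} {Q' : Fin k → E3} (Q : Fin k → E3)
    {p : ℕ → E3 → ℝ} {e : ℕ → Fin k → W → ℝ} (hD : CoreData Γ Γ1 h z Q' n p e)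
include hG hμ hh hz hD

omit hG hμ hh hz in
lemma core_abs {m : ℕ} (hm : m ≤ n) (x : E3) : |p m x| ≤ 1 := by
  rw [abs_of_nonneg (hD.nonneg m hm x)]; exact hD.le_one m hm x

lemma concavity_step {m : ℕ} (hm : m < n) :
    (∫ x, p m x * (uIt Γ h z Q' m x - uIt Γ h z Q m x)) +
      ∫ x, p (m + 1) x * (qf h z Q' x - qf h z Q x) ≤
    ∫ x, p (m + 1) x * (uIt Γ h z Q' (m + 1) x - uIt Γ h z Q (m + 1) x) := by
  have hΓ := GC2.nonlin hG hμ
  obtain ⟨a1, a2, a3⟩ := uIt_props hh hz Q' hΓ m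
  obtain ⟨b1, b2, b3⟩ := uIt_props hh hz Q hΓ m
  obtain ⟨a4, a5⟩ := integrable_sub_Γ hh hz Q' hΓ m
  obtain ⟨b4, b5⟩ := integrable_sub_Γ hh hz Q hΓ m
  have hp0 : AEStronglyMeasurable (p m) volume := (hD.cont m hm.le).aestronglyMeasurable
  have hp1 : AEStronglyMeasurable (p (m + 1)) volume := (hD.cont (m + 1) hm).aestronglyMeasurable
  have hb0 : ∀ x, ‖p m x‖ ≤ 1 := fun x => core_abs hD hm.le x
  have hb1 : ∀ x, ‖p (m + 1) x‖ ≤ 1 := fun x => core_abs hD hm x
  set F : E3 → ℝ := fun x => (uIt Γ h z Q' m x - Γ (uIt Γ h z Q' m x)) -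
    (uIt Γ h z Q m x - Γ (uIt Γ h z Q m x)) with hF
  have hFi : Integrable F := a4.sub b4
  have hqi : Integrable (fun x => qf h z Q' x - qf h z Q x) :=
    (integrable_qf hh Q').1.sub (integrable_qf hh Q).1
  have hstep : ∀ x, uIt Γ h z Q' (m + 1) x - uIt Γ h z Q (m + 1) x =
      P h F x + (qf h z Q' x - qf h z Q x) := by
    intro x
    rw [uIt_succ, uIt_succ, hF, P_sub x (integrable_hk_mul' hh a4 x) (integrable_hk_mul' hh b4 x)]
    ring
  have hPF : Integrable (P h F) := integrable_P hh hFi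
  have e1 : ∫ x, p (m + 1) x * (uIt Γ h z Q' (m + 1) x - uIt Γ h z Q (m + 1) x) =
      (∫ x, P h (p (m + 1)) x * F x) + ∫ x, p (m + 1) x * (qf h z Q' x - qf h z Q x) := by
    rw [← P_selfadj hh hFi hp1 (core_abs hD hm), ← integral_add]
    · congr 1; ext x; rw [hstep]; ring
    · exact hPF.bdd_mul hp1 (Eventually.of_forall hb1)
    · exact hqi.bdd_mul hp1 (Eventually.of_forall hb1)
  rw [e1]
  have hPp : ∀ x, |P h (p (m + 1)) x| ≤ 1 := abs_P_le hh (core_abs hD hm)
  have hPpm : AEStronglyMeasurable (P h (p (m + 1))) volume := aesm_P hp1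
  have key : ∫ x, p m x * (uIt Γ h z Q' m x - uIt Γ h z Q m x) ≤ ∫ x, P h (p (m + 1)) x * F x := by
    refine integral_mono ((a3.sub b3).bdd_mul hp0 (Eventually.of_forall hb0))
      (hFi.bdd_mul hPpm (Eventually.of_forall hPp)) fun x => ?_
    simp only
    rw [hD.step m hm x]
    have h1 := GC2.convex hG (uIt Γ h z Q m x) (uIt Γ h z Q' m x)
    have h2 : 0 ≤ P h (p (m + 1)) x := P_nonneg hh.le (hD.nonneg (m + 1) hm) x
    calc (1 - Γ1 (uIt Γ h z Q' m x)) * P h (p (m + 1)) x * (uIt Γ h z Q' m x - uIt Γ h z Q m x)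
        = P h (p (m + 1)) x * ((1 - Γ1 (uIt Γ h z Q' m x)) *
          (uIt Γ h z Q' m x - uIt Γ h z Q m x)) := by ring
      _ ≤ _ := mul_le_mul_of_nonneg_left h1 h2
  linarith

lemma concavity_sum :
    ∑ m ∈ Finset.range n, ∫ x, p (m + 1) x * (qf h z Q' x - qf h z Q x) ≤
    (∫ x, uIt Γ h z Q' n x) - ∫ x, uIt Γ h z Q n x := by
  have hΓ := GC2.nonlin hG hμ
  have key : ∀ m ≤ n, ∑ j ∈ Finset.range m, ∫ x, p (j + 1) x * (qf h z Q' x - qf h z Q x) ≤
      ∫ x, p m x * (uIt Γ h z Q' m x - uIt Γ h z Q m x) := by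
    intro m
    induction m with
    | zero =>
      intro _
      simp [uIt]
    | succ m ih =>
      intro hm
      rw [Finset.sum_range_succ]
      have h1 := ih (by omega)
      have h2 := concavity_step hG hμ hh hz Q hD (m := m) (by omega)
      linarith
  have h1 := key n le_rfl
  have h2 : ∫ x, p n x * (uIt Γ h z Q' n x - uIt Γ h z Q n x) =
      (∫ x, uIt Γ h z Q' n x) - ∫ x, uIt Γ h z Q n x := by
    simp_rw [hD.last, one_mul]
    exact integral_sub (uIt_props hh hz Q' hΓ n).2.2 (uIt_props hh hz Q hΓ n).2.2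
  linarith

omit hG hμ hz in
lemma fub_source {m : ℕ} (hm : m ≤ n) (Q : Fin k → E3) :
    ∫ x, p m x * qf h z Q x = 4 * π * ∑ j, z j * ∫ t in Ioc h (2 * h), P t (p m) (Q j) := by
  have hpm := (hD.cont m hm).measurable
  have hpa : ∀ x, |p m x| ≤ 1 := core_abs hD hm
  have hi : ∀ j, Integrable (fun x => p m x * (z j * kap h (x - Q j))) := fun j =>
    (((integrable_kap hh).1.comp_sub_right (Q j)).const_mul (z j)).bdd_mul hpm.aestronglyMeasurable
      (Eventually.of_forall hpa)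
  unfold qf
  simp_rw [Finset.mul_sum]
  rw [integral_finsetSum _ fun j _ => hi j]
  refine Finset.sum_congr rfl fun j _ => ?_
  rw [← fubT hh hpm hpa (Q j), ← integral_const_mul, ← integral_const_mul]
  congr 1; ext x
  unfold kap
  ring

omit hG hμ hz in
lemma fub_source_sub {m : ℕ} (hm : m ≤ n) :
    ∫ x, p m x * (qf h z Q' x - qf h z Q x) =
      4 * π * ∑ j, z j * ∫ t in Ioc h (2 * h), (P t (p m) (Q' j) - P t (p m) (Q j)) := by
  have hpm := (hD.cont m hm).measurable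
  have hpa : ∀ x, |p m x| ≤ 1 := core_abs hD hm
  have e1 : ∫ x, p m x * (qf h z Q' x - qf h z Q x) =
      (∫ x, p m x * qf h z Q' x) - ∫ x, p m x * qf h z Q x := by
    rw [← integral_sub]
    · congr 1; ext x; ring
    · exact (integrable_qf hh Q').1.bdd_mul hpm.aestronglyMeasurable (Eventually.of_forall hpa)
    · exact (integrable_qf hh Q).1.bdd_mul hpm.aestronglyMeasurable (Eventually.of_forall hpa)
  rw [e1, fub_source hh hD hm Q', fub_source hh hD hm Q, ← mul_sub, ← Finset.sum_sub_distrib]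
  congr 1
  refine Finset.sum_congr rfl fun j _ => ?_
  rw [integral_sub (integrableOn_P_t hh hpm hpa _) (integrableOn_P_t hh hpm hpa _)]
  ring

omit hG hμ hz in
lemma fub_e {m : ℕ} (hm : m ≤ n) (i : Fin k) (Y : E3) :
    ∫ X, e m i X * a0 h (X - emb Y) = 8 * π ^ 2 * ∫ t in Ioc h (2 * h), P t (e m i) (emb Y) := by
  obtain ⟨C, hC⟩ := (hD.e_nice m hm i).abs_le
  rw [← fubT hh (hD.e_nice m hm i).cont.measurable hC (emb Y), ← integral_const_mul]
  congr 1; ext X
  unfold a0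
  ring

end step1

section step4

variable {Γ Γ1 Γ2 : ℝ → ℝ} {μ : ℝ} (hG : GC2 Γ Γ1 Γ2 μ) (hμ : 0 < μ)
    {h : ℝ} (hh : 0 < h) {z : Fin k → ℝ} (hz : ∀ i, 0 < z i) {n : ℕ} {R : Fin k → E3} {l l' : ℝ}
    {p : ℕ → E3 → ℝ} {e : ℕ → Fin k → W → ℝ}
    (hD : CoreData Γ Γ1 h z (fun i => l' • R i) n p e)

include hh hz hD in
lemma step_lower {C : ℝ} (hC0 : 0 ≤ C) (hC : ∀ (p : E3 → ℝ), Measurable p → (∀ x, |p x| ≤ 1) →
    ∀ t ∈ Ioc h (2 * h), ∀ (x y : E3) (L : E3 →L[ℝ] ℝ), HasFDerivAt (𝕜 := ℝ) (P t p) L x →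
    L (x - y) - C * ‖x - y‖ ^ 2 ≤ P t p x - P t p y) {m : ℕ} (hm : m ≤ n) (j : Fin k) :
    (l' - l) * (∑ i, z i * inner ℝ (l' • R j - l' • R i) (R j) *
        ∫ t in Ioc h (2 * h), P t (e m i) (emb (l' • R j))) - h * C * (l' - l) ^ 2 * ‖R j‖ ^ 2 ≤
    ∫ t in Ioc h (2 * h), (P t (p m) (l' • R j) - P t (p m) (l • R j)) := by
  have hpm := (hD.cont m hm).measurable
  have hpa : ∀ x, |p m x| ≤ 1 := core_abs hD hm
  have hei : ∀ i, IntegrableOn (fun t => P t (e m i) (emb (l' • R j))) (Ioc h (2 * h)) := by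
    intro i
    obtain ⟨C, hC⟩ := (hD.e_nice m hm i).abs_le
    exact integrableOn_P_t hh (hD.e_nice m hm i).cont.measurable hC _
  have hlow : ∀ t ∈ Ioc h (2 * h), (l' - l) * (∑ i, z i * inner ℝ (l' • R j - l' • R i) (R j) *
      P t (e m i) (emb (l' • R j))) - C * (l' - l) ^ 2 * ‖R j‖ ^ 2 ≤
      P t (p m) (l' • R j) - P t (p m) (l • R j) := by
    intro t ht
    have h1 := hC (p m) hpm hpa t ht (l' • R j) (l • R j) _
      (hD.grad m hm t (hh.trans ht.1) (l' • R j))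
    have h2 : l' • R j - l • R j = (l' - l) • R j := by rw [sub_smul]
    rw [h2, norm_smul, mul_pow, Real.norm_eq_abs, sq_abs, innerSL_apply_apply, sum_inner] at h1
    refine le_trans (le_of_eq ?_) h1
    rw [Finset.mul_sum, mul_assoc C]
    congr 1
    refine Finset.sum_congr rfl fun i _ => ?_
    rw [inner_smul_left, inner_smul_right, conj_trivial]
    ring
  have hint1 : IntegrableOn (fun t => (l' - l) * (∑ i, z i * inner ℝ (l' • R j - l' • R i) (R j) *
      P t (e m i) (emb (l' • R j))) - C * (l' - l) ^ 2 * ‖R j‖ ^ 2) (Ioc h (2 * h)) := by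
    refine Integrable.sub ((integrable_finsetSum _ fun i _ => (hei i).const_mul _).const_mul _) ?_
    exact integrableOn_const (by simp)
  have hint2 : IntegrableOn (fun t => P t (p m) (l' • R j) - P t (p m) (l • R j)) (Ioc h (2 * h)) :=
    (integrableOn_P_t hh hpm hpa _).sub (integrableOn_P_t hh hpm hpa _)
  have h3 := setIntegral_mono_on hint1 hint2 measurableSet_Ioc hlow
  refine le_trans (le_of_eq ?_) h3
  rw [integral_sub ((integrable_finsetSum _ fun i _ => (hei i).const_mul _).const_mul _)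
    (integrableOn_const (by simp)), integral_const_mul,
    integral_finsetSum _ fun i _ => (hei i).const_mul _]
  simp_rw [integral_const_mul]
  simp
  rw [max_eq_left (by linarith)]
  ring

include hG hμ hh hz hD in
lemma lower (hl : 0 < l) (hll : l ≤ l') {C : ℝ} (hC0 : 0 ≤ C) (hC : ∀ (p : E3 → ℝ), Measurable p → (∀ x, |p x| ≤ 1) →
    ∀ t ∈ Ioc h (2 * h), ∀ (x y : E3) (L : E3 →L[ℝ] ℝ), HasFDerivAt (𝕜 := ℝ) (P t p) L x →
    L (x - y) - C * ‖x - y‖ ^ 2 ≤ P t p x - P t p y) :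
    -(4 * π * n * h * C * ∑ j, z j * ‖R j‖ ^ 2) * (l' - l) ^ 2 ≤
    (∫ x, uIt Γ h z (fun i => l' • R i) n x) - ∫ x, uIt Γ h z (fun i => l • R i) n x := by
  refine le_trans ?_ (concavity_sum hG hμ hh hz (fun i => l • R i) hD)
  -- the force coefficients
  set b : ℕ → Fin k → Fin k → ℝ := fun m i j =>
    ∫ t in Ioc h (2 * h), P t (e m i) (emb (l' • R j)) with hb
  set B : Fin k → Fin k → ℝ := fun i j => ∑ m ∈ Finset.range n, b (m + 1) i j with hB
  have hBnn : ∀ i j, 0 ≤ B i j := by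
    intro i j
    refine Finset.sum_nonneg fun m hm => setIntegral_nonneg measurableSet_Ioc fun t ht => ?_
    have hm' : m + 1 ≤ n := Finset.mem_range.1 hm
    exact P_nonneg (hh.trans ht.1).le (hD.e_nonneg (m + 1) hm' i) _
  have hBsymm : ∀ i j, B i j = B j i := by
    intro i j
    have h1 := hD.symm i j
    have h2 : ∀ i j, ∑ m ∈ Finset.range n, ∫ X, e (m + 1) i X * a0 h (X - emb (l' • R j)) =
        8 * π ^ 2 * B i j := by
      intro i j
      rw [hB, Finset.mul_sum]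
      refine Finset.sum_congr rfl fun m hm => ?_
      exact fub_e hh hD (Finset.mem_range.1 hm) i (l' • R j)
    rw [h2 i j, h2 j i] at h1
    exact mul_left_cancel₀ (by positivity) h1
  have hform : 0 ≤ ∑ j, ∑ i, z j * (z i * inner ℝ (l' • R j - l' • R i) (R j) * B i j) := by
    have hl' : 0 < l' := hl.trans_le hll
    set c : Fin k → Fin k → ℝ := fun j i => z j * (z i * inner ℝ (l' • R j - l' • R i) (R j) * B i j) with hc
    have h1 : ∀ i j, 0 ≤ c j i + c i j := by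
      intro i j
      have : c j i + c i j = z i * z j * B i j * (l' * ‖R j - R i‖ ^ 2) := by
        simp only [hc]
        rw [hBsymm j i, ← smul_sub, ← smul_sub, inner_smul_left, inner_smul_left, conj_trivial,
          ← real_inner_self_eq_norm_sq, inner_sub_left, inner_sub_left, inner_sub_right]
        simp only [inner_sub_left, inner_sub_right]
        ring
      rw [this]
      have := hBnn i j
      have := hz i
      have := hz j
      positivity
    have h2 : 2 * ∑ j, ∑ i, c j i = ∑ j, ∑ i, (c j i + c i j) := by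
      simp_rw [Finset.sum_add_distrib]
      rw [Finset.sum_comm (f := fun j i => c i j)]
      ring
    have h3 : 0 ≤ ∑ j, ∑ i, (c j i + c i j) :=
      Finset.sum_nonneg fun j _ => Finset.sum_nonneg fun i _ => h1 i j
    linarith
  have hstep : ∀ m ∈ Finset.range n, 4 * π * ∑ j, z j * ((l' - l) * (∑ i, z i *
      inner ℝ (l' • R j - l' • R i) (R j) * b (m + 1) i j) - h * C * (l' - l) ^ 2 * ‖R j‖ ^ 2) ≤
      ∫ x, p (m + 1) x * (qf h z (fun i => l' • R i) x - qf h z (fun i => l • R i) x) := by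
    intro m hm
    have hm' : m + 1 ≤ n := Finset.mem_range.1 hm
    rw [fub_source_sub hh (fun i => l • R i) hD hm']
    refine mul_le_mul_of_nonneg_left (Finset.sum_le_sum fun j _ => ?_) (by positivity)
    exact mul_le_mul_of_nonneg_left (step_lower hh hz hD hC0 hC hm' j) (hz j).le
  refine le_trans ?_ (Finset.sum_le_sum hstep)
  have hsum : ∑ m ∈ Finset.range n, 4 * π * ∑ j, z j * ((l' - l) * (∑ i, z i *
      inner ℝ (l' • R j - l' • R i) (R j) * b (m + 1) i j) - h * C * (l' - l) ^ 2 * ‖R j‖ ^ 2) =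
      4 * π * (l' - l) * (∑ j, ∑ i, z j * (z i * inner ℝ (l' • R j - l' • R i) (R j) * B i j)) -
      (4 * π * n * h * C * ∑ j, z j * ‖R j‖ ^ 2) * (l' - l) ^ 2 := by
    rw [← Finset.mul_sum, Finset.sum_comm]
    have h1 : ∀ j, ∑ m ∈ Finset.range n, z j * ((l' - l) * (∑ i, z i *
        inner ℝ (l' • R j - l' • R i) (R j) * b (m + 1) i j) - h * C * (l' - l) ^ 2 * ‖R j‖ ^ 2) =
        (l' - l) * (∑ i, z j * (z i * inner ℝ (l' • R j - l' • R i) (R j) * B i j)) -
        n * h * C * (l' - l) ^ 2 * (z j * ‖R j‖ ^ 2) := by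
      intro j
      rw [← Finset.mul_sum, Finset.sum_sub_distrib, ← Finset.mul_sum, Finset.sum_comm]
      simp only [hB, Finset.mul_sum, Finset.sum_const, Finset.card_range, nsmul_eq_mul, mul_sub]
      congr 1
      · refine Finset.sum_congr rfl fun i _ => Finset.sum_congr rfl fun m _ => ?_
        ring
      · ring
    simp_rw [h1]
    rw [Finset.sum_sub_distrib, ← Finset.mul_sum, ← Finset.mul_sum]
    ring
  rw [hsum]
  have h4 : 0 ≤ 4 * π * (l' - l) * (∑ j, ∑ i, z j * (z i * inner ℝ (l' • R j - l' • R i) (R j) * B i j)) := by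
    have : 0 ≤ l' - l := by linarith
    positivity
  linarith

end step4

/-- a function with a quadratic lower bound on its increments is monotone -/
lemma mono_of_quad {U : ℝ → ℝ} {C : ℝ} {l l' : ℝ} (hl : 0 < l) (hll : l ≤ l')
    (hU : ∀ a b, 0 < a → a ≤ b → -C * (b - a) ^ 2 ≤ U b - U a) : U l ≤ U l' := by
  have key : ∀ N : ℕ, 0 < N → -C * (l' - l) ^ 2 * (1 / (N : ℝ)) ≤ U l' - U l := by
    intro N hN
    have hN' : (0 : ℝ) < N := Nat.cast_pos.2 hN
    set s : ℕ → ℝ := fun i => l + i * ((l' - l) / N) with hs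
    have h0 : s 0 = l := by simp [hs]
    have h1 : s N = l' := by simp only [hs]; field_simp; ring
    have h2 : ∑ i ∈ Finset.range N, (U (s (i + 1)) - U (s i)) = U (s N) - U (s 0) :=
      Finset.sum_range_sub (fun i => U (s i)) N
    rw [h0, h1] at h2
    rw [← h2]
    have hd : 0 ≤ (l' - l) / N := div_nonneg (by linarith) hN'.le
    have h3 : ∀ i ∈ Finset.range N, -C * ((l' - l) / N) ^ 2 ≤ U (s (i + 1)) - U (s i) := by
      intro i _
      have e1 : s (i + 1) - s i = (l' - l) / N := by simp only [hs]; push_cast; ring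
      have := hU (s i) (s (i + 1)) (by simp only [hs]; positivity) (by linarith)
      rwa [e1] at this
    have h4 := Finset.sum_le_sum h3
    rw [Finset.sum_const, Finset.card_range, nsmul_eq_mul] at h4
    refine le_trans (le_of_eq ?_) h4
    field_simp
  have hlim : Tendsto (fun N : ℕ => -C * (l' - l) ^ 2 * (1 / ((N : ℝ) + 1))) atTop
      (𝓝 (-C * (l' - l) ^ 2 * 0)) := tendsto_one_div_add_atTop_nhds_zero_nat.const_mul _
  rw [mul_zero] at hlim
  have := le_of_tendsto' hlim (b := U l' - U l) fun N => by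
    have := key (N + 1) (Nat.succ_pos N)
    push_cast at this
    exact this
  linarith

/-- I.2: C² case of `U_mono`. -/
theorem U_mono_C2_of {Γ Γ1 Γ2 : ℝ → ℝ} {μ : ℝ} (hG : GC2 Γ Γ1 Γ2 μ) (hμ : 0 < μ)
    {h : ℝ} (hh : 0 < h) {z : Fin k → ℝ} (hz : ∀ i, 0 < z i) (n : ℕ)
    (hcore : ∀ (Q : Fin k → E3), ∃ (p : ℕ → E3 → ℝ) (e : ℕ → Fin k → W → ℝ),
      CoreData Γ Γ1 h z Q n p e)
    (R : Fin k → E3) (l l' : ℝ) (hl : 0 < l) (hll : l ≤ l') :
    ∫ x, uIt Γ h z (fun i => l • R i) n x ≤ ∫ x, uIt Γ h z (fun i => l' • R i) n x := by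
  obtain ⟨C, hC0, hC⟩ := taylor (V := E3) hh
  refine mono_of_quad (U := fun l => ∫ x, uIt Γ h z (fun i => l • R i) n x)
    (C := 4 * π * n * h * C * ∑ j, z j * ‖R j‖ ^ 2) hl hll fun a b ha hab => ?_
  obtain ⟨p, e, hD⟩ := hcore (fun i => b • R i)
  exact lower hG hμ hh hz hD ha hab hC0 hC

end Pool.Agent.H82.TF
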