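import Mathlib

/-!
# The function `G`, inverse of `r ↦ r ^ (2/3) + c r`
-/

namespace Pool.Agent.H82.TF

open Set

lemma tau_strictMono {c : ℝ} (hc : 0 < c) :
    StrictMonoOn (fun r : ℝ => r ^ ((2 : ℝ) / 3) + c * r) (Ici 0) := by
  intro a ha b hb hab
  have h1 : a ^ ((2 : ℝ) / 3) ≤ b ^ ((2 : ℝ) / 3) := Real.rpow_le_rpow ha hab.le (by norm_num)
  have h2 : c * a < c * b := by gcongr
  simp only
  linarith

lemma tau_surj {c : ℝ} (hc : 0 < c) {t : ℝ} (ht : 0 ≤ t) :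
    ∃ r : ℝ, 0 ≤ r ∧ r ^ ((2 : ℝ) / 3) + c * r = t := by
  have hcont : ContinuousOn (fun r : ℝ => r ^ ((2 : ℝ) / 3) + c * r) (Icc 0 (t / c)) :=
    ((Real.continuous_rpow_const (by norm_num)).add (continuous_const.mul continuous_id)).continuousOn
  have h := intermediate_value_Icc (show (0 : ℝ) ≤ t / c by positivity) hcont
  have h0 : t ∈ Icc ((0 : ℝ) ^ ((2 : ℝ) / 3) + c * 0) ((t / c) ^ ((2 : ℝ) / 3) + c * (t / c)) := by
    rw [Real.zero_rpow (by norm_num), mul_zero, add_zero, mul_div_cancel₀ _ hc.ne']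
    exact ⟨ht, by have : 0 ≤ (t / c) ^ ((2 : ℝ) / 3) := by positivity
                  linarith⟩
  obtain ⟨r, hr, hrt⟩ := h h0
  exact ⟨r, hr.1, hrt⟩

/-- The inverse of `r ↦ r ^ (2/3) + c r`. -/
theorem exists_G (c : ℝ) (hc : 0 < c) : ∃ G : ℝ → ℝ, (∀ t, 0 ≤ G t) ∧ (∀ t ≤ 0, G t = 0) ∧
    Monotone G ∧ ConvexOn ℝ univ G ∧ (∀ a b, a ≤ b → G b - G a ≤ (b - a) / c) ∧
    ∀ t s, 0 ≤ s → (3 / 5) * (G t) ^ ((5 : ℝ) / 3) + c / 2 * (G t) ^ 2 + t * (s - G t) ≤
      (3 / 5) * s ^ ((5 : ℝ) / 3) + c / 2 * s ^ 2 := by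
  have hex : ∀ t : ℝ, ∃ r : ℝ, 0 ≤ r ∧ r ^ ((2 : ℝ) / 3) + c * r = max t 0 :=
    fun t => tau_surj hc (le_max_right _ _)
  choose G hG0 hG using hex
  have hmono := tau_strictMono hc
  have hle : ∀ r s : ℝ, 0 ≤ r → 0 ≤ s →
      r ^ ((2 : ℝ) / 3) + c * r ≤ s ^ ((2 : ℝ) / 3) + c * s → r ≤ s := by
    intro r s hr hs h
    exact (hmono.le_iff_le hr hs).mp h
  have hGm : Monotone G := by
    intro a b hab
    refine hle _ _ (hG0 a) (hG0 b) ?_
    rw [hG, hG]
    exact max_le_max hab le_rfl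
  have hconc : ConcaveOn ℝ (Ici (0 : ℝ)) (fun r : ℝ => r ^ ((2 : ℝ) / 3)) :=
    Real.concaveOn_rpow (by norm_num) (by norm_num)
  refine ⟨G, hG0, ?_, hGm, ⟨convex_univ, ?_⟩, ?_, ?_⟩
  · intro t ht
    refine le_antisymm (hle _ _ (hG0 t) le_rfl ?_) (hG0 t)
    rw [hG, Real.zero_rpow (by norm_num), mul_zero, add_zero, max_eq_right ht]
  · intro x _ y _ a b ha hb hab
    simp only [smul_eq_mul]
    refine hle _ _ (hG0 _) (by have := hG0 x; have := hG0 y; positivity) ?_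
    rw [hG]
    have h1 := hconc.2 (hG0 x) (hG0 y) ha hb hab
    simp only [smul_eq_mul] at h1
    have h2 : a * max x 0 + b * max y 0 ≤ (a * G x + b * G y) ^ ((2 : ℝ) / 3) +
        c * (a * G x + b * G y) := by
      rw [← hG x, ← hG y]
      linarith
    refine le_trans ?_ h2
    apply max_le
    · have := le_max_left x 0
      have := le_max_left y 0
      gcongr
    · have := le_max_right x 0
      have := le_max_right y 0
      positivity
  · intro a b hab
    rw [le_div_iff₀ hc]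
    have h1 : (G a) ^ ((2 : ℝ) / 3) ≤ (G b) ^ ((2 : ℝ) / 3) :=
      Real.rpow_le_rpow (hG0 a) (hGm hab) (by norm_num)
    have h2 := hG a
    have h3 := hG b
    have h4 : max b 0 - max a 0 ≤ b - a := by
      rcases le_total a 0 with h | h <;> rcases le_total b 0 with h' | h' <;>
        simp only [max_eq_left, max_eq_right, h, h'] <;> linarith
    nlinarith
  · intro t s hs
    set r := G t with hr
    have hr0 : 0 ≤ r := hG0 t
    have hY : s * r ^ ((2 : ℝ) / 3) ≤ (3 / 5) * s ^ ((5 : ℝ) / 3) + (2 / 5) * r ^ ((5 : ℝ) / 3) := by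
      have h1 := Real.young_inequality_of_nonneg hs (show 0 ≤ r ^ ((2 : ℝ) / 3) by positivity)
        (p := 5 / 3) (q := 5 / 2) (by constructor <;> norm_num)
      have h2 : (r ^ ((2 : ℝ) / 3)) ^ ((5 : ℝ) / 2) = r ^ ((5 : ℝ) / 3) := by
        rw [← Real.rpow_mul hr0]; norm_num
      rw [h2] at h1
      have e1 : s ^ ((5 : ℝ) / 3) / (5 / 3) = (3 / 5) * s ^ ((5 : ℝ) / 3) := by ring
      have e2 : r ^ ((5 : ℝ) / 3) / (5 / 2) = (2 / 5) * r ^ ((5 : ℝ) / 3) := by ring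
      rw [e1, e2] at h1
      exact h1
    have hpow : r * r ^ ((2 : ℝ) / 3) = r ^ ((5 : ℝ) / 3) := by
      rcases hr0.eq_or_lt with h | h
      · rw [← h, Real.zero_rpow (by norm_num), Real.zero_rpow (by norm_num), mul_zero]
      · nth_rewrite 1 [← Real.rpow_one r]
        rw [← Real.rpow_add h]
        norm_num
    have hsq : 0 ≤ c / 2 * (s - r) ^ 2 := by positivity
    have hGt := hG t
    rw [← hr] at hGt
    rcases le_total 0 t with h | h
    · rw [max_eq_left h] at hGt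
      rw [← hGt]
      nlinarith
    · -- `r = 0`
      have h0 : r = 0 := by
        refine le_antisymm (hle _ _ hr0 le_rfl ?_) hr0
        rw [hGt, Real.zero_rpow (by norm_num), mul_zero, add_zero, max_eq_right h]
      rw [h0, Real.zero_rpow (by norm_num)]
      have : 0 ≤ s ^ ((5 : ℝ) / 3) := by positivity
      nlinarith [mul_nonneg hs (neg_nonneg.mpr h), mul_nonneg hc.le (sq_nonneg s)]

end Pool.Agent.H82.TF
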