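import Mathlib
import Pool.Agent.H82.TF.ChK

/-!
# The monotone iteration and its limit
-/

open MeasureTheory Real Set Pool.Agent.H29.TF Filter Topology

namespace Pool.Agent.H82.TF

variable {k : ℕ}

lemma measurable_P {t : ℝ} {f : E3 → ℝ} (hf : Measurable f) : Measurable (P t f) := by
  unfold P
  have h1 : StronglyMeasurable (fun p : E3 × E3 => hk t (p.1 - p.2) * f p.2) := by
    refine Measurable.stronglyMeasurable (Measurable.mul ?_ (hf.comp measurable_snd))
    exact (continuous_hk t).measurable.comp (measurable_fst.sub measurable_snd)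
  exact (h1.integral_prod_right (ν := volume)).measurable

/-- The truncated potential. -/
noncomputable def Vp (h : ℝ) (z : Fin k → ℝ) (Q : Fin k → E3) (x : E3) : ℝ :=
  ∑ i, z i * vh h (x - Q i)

/-- The source. -/
noncomputable def qf (h : ℝ) (z : Fin k → ℝ) (Q : Fin k → E3) (x : E3) : ℝ :=
  ∑ i, z i * kap h (x - Q i)

section basics

variable {h : ℝ} (hh : 0 < h) {z : Fin k → ℝ} (hz : ∀ i, 0 < z i) (Q : Fin k → E3)
include hh hz

lemma Vp_nonneg (x : E3) : 0 ≤ Vp h z Q x :=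
  Finset.sum_nonneg fun i _ => mul_nonneg (hz i).le (vh_nonneg hh _)

lemma qf_nonneg (x : E3) : 0 ≤ qf h z Q x :=
  Finset.sum_nonneg fun i _ => mul_nonneg (hz i).le (kap_nonneg hh _)

omit hh hz in
lemma measurable_Vp : Measurable (Vp h z Q) := by
  unfold Vp
  exact Finset.measurable_sum _ fun i _ => ((measurable_vh h).comp (measurable_id.sub_const _)).const_mul _

omit hh hz in
lemma measurable_qf : Measurable (qf h z Q) := by
  unfold qf
  exact Finset.measurable_sum _ fun i _ => ((measurable_kap h).comp (measurable_id.sub_const _)).const_mul _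

lemma Vp_le (x : E3) : Vp h z Q x ≤ (∑ i, z i) * vh h 0 := by
  unfold Vp
  rw [Finset.sum_mul]
  exact Finset.sum_le_sum fun i _ => mul_le_mul_of_nonneg_left (vh_le_zero hh _) (hz i).le

lemma abs_Vp_le (x : E3) : |Vp h z Q x| ≤ (∑ i, z i) * vh h 0 := by
  rw [abs_of_nonneg (Vp_nonneg hh hz Q x)]
  exact Vp_le hh hz Q x

omit hz in
lemma P_Vp {t : ℝ} (ht : 0 < t) (x : E3) : P t (Vp h z Q) x = Vp (t + h) z Q x := by
  have h1 : ∀ i, Integrable (fun y => hk t (x - y) * (z i * vh h (y - Q i))) := by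
    intro i
    refine integrable_hk_mul ht (C := |z i| * vh h 0)
      (((measurable_vh h).comp (measurable_id.sub_const _)).const_mul _).aestronglyMeasurable
      (fun y => ?_) x
    change |z i * vh h (y - Q i)| ≤ |z i| * vh h 0
    rw [abs_mul, abs_of_nonneg (vh_nonneg hh _)]
    gcongr
    exact vh_le_zero hh _
  unfold P Vp
  have h2 : (fun y => hk t (x - y) * ∑ i, z i * vh h (y - Q i)) =
      fun y => ∑ i, hk t (x - y) * (z i * vh h (y - Q i)) := by
    ext y; rw [Finset.mul_sum]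
  rw [h2, integral_finsetSum _ fun i _ => h1 i]
  refine Finset.sum_congr rfl fun i _ => ?_
  rw [← P_vh ht hh (Q i) x]
  unfold P
  rw [← integral_const_mul]
  congr 1; ext y; ring

omit hz in
lemma P_Vp_add (x : E3) : P h (Vp h z Q) x + qf h z Q x = Vp h z Q x := by
  rw [P_Vp hh Q hh]
  unfold Vp qf
  rw [← Finset.sum_add_distrib]
  refine Finset.sum_congr rfl fun i _ => ?_
  rw [vh_eq_kap_add hh (x - Q i)]
  ring_nf

omit hz in
lemma integrable_qf : Integrable (qf h z Q) ∧ ∫ x, qf h z Q x = 4 * π * h * ∑ i, z i := by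
  obtain ⟨h1, h2⟩ := integrable_kap hh
  constructor
  · unfold qf
    exact integrable_finsetSum _ fun i _ => (h1.comp_sub_right (Q i)).const_mul _
  · unfold qf
    rw [integral_finsetSum _ fun i _ => (h1.comp_sub_right (Q i)).const_mul _, Finset.mul_sum]
    refine Finset.sum_congr rfl fun i _ => ?_
    rw [integral_const_mul, integral_sub_right_eq_self (fun x => kap h x) (Q i), h2]
    ring

end basics

/-- The assumptions on the nonlinearity. -/
structure Nonlin (Γ : ℝ → ℝ) : Prop where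
  mono : Monotone Γ
  lip : ∀ a b, a ≤ b → Γ b - Γ a ≤ b - a
  zero : Γ 0 = 0

namespace Nonlin

variable {Γ : ℝ → ℝ} (hΓ : Nonlin Γ)
include hΓ

lemma nonneg {t : ℝ} (ht : 0 ≤ t) : 0 ≤ Γ t := by
  rw [← hΓ.zero]; exact hΓ.mono ht

lemma le_self {t : ℝ} (ht : 0 ≤ t) : Γ t ≤ t := by
  have := hΓ.lip 0 t ht
  rw [hΓ.zero] at this
  linarith

lemma sub_mono {a b : ℝ} (h : a ≤ b) : a - Γ a ≤ b - Γ b := by
  have := hΓ.lip a b h
  linarith

lemma continuous : Continuous Γ := by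
  refine (LipschitzWith.of_dist_le_mul (K := 1) fun a b => ?_).continuous
  rw [Real.dist_eq, Real.dist_eq, NNReal.coe_one, one_mul]
  rcases le_total a b with h | h
  · have h1 := hΓ.mono h
    have h2 := hΓ.lip a b h
    rw [abs_of_nonpos (by linarith), abs_of_nonpos (by linarith)]
    linarith
  · have h1 := hΓ.mono h
    have h2 := hΓ.lip b a h
    rw [abs_of_nonneg (by linarith), abs_of_nonneg (by linarith)]
    linarith

end Nonlin

section iteration

variable {h : ℝ} (hh : 0 < h) {z : Fin k → ℝ} (hz : ∀ i, 0 < z i) (Q : Fin k → E3)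
  {Γ : ℝ → ℝ} (hΓ : Nonlin Γ)
include hh hz hΓ

omit hh hz hΓ in
lemma uIt_succ (n : ℕ) (x : E3) : uIt Γ h z Q (n + 1) x =
    P h (fun y => uIt Γ h z Q n y - Γ (uIt Γ h z Q n y)) x + qf h z Q x := rfl

lemma uIt_props (n : ℕ) : Measurable (uIt Γ h z Q n) ∧
    (∀ x, 0 ≤ uIt Γ h z Q n x ∧ uIt Γ h z Q n x ≤ Vp h z Q x) ∧ Integrable (uIt Γ h z Q n) := by
  induction n with
  | zero =>
    refine ⟨measurable_const, fun x => ⟨le_rfl, Vp_nonneg hh hz Q x⟩, integrable_zero _ _ _⟩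
  | succ n ih =>
    obtain ⟨m1, m2, m3⟩ := ih
    set f : E3 → ℝ := fun y => uIt Γ h z Q n y - Γ (uIt Γ h z Q n y) with hf
    have hfm : Measurable f := m1.sub (hΓ.mono.measurable.comp m1)
    have hf0 : ∀ x, 0 ≤ f x := fun x => by
      have := hΓ.le_self (m2 x).1
      simp only [hf]; linarith
    have hf1 : ∀ x, f x ≤ uIt Γ h z Q n x := fun x => by
      have := hΓ.nonneg (m2 x).1
      simp only [hf]; linarith
    have hfi : Integrable f := by
      refine m3.mono' hfm.aestronglyMeasurable (Eventually.of_forall fun x => ?_)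
      rw [Real.norm_of_nonneg (hf0 x)]
      exact hf1 x
    have hrec : ∀ x, uIt Γ h z Q (n + 1) x = P h f x + qf h z Q x := fun x => rfl
    have hfun : uIt Γ h z Q (n + 1) = fun x => P h f x + qf h z Q x := rfl
    refine ⟨?_, fun x => ⟨?_, ?_⟩, ?_⟩
    · rw [hfun]
      exact (measurable_P hfm).add (measurable_qf Q)
    · rw [hrec]
      exact add_nonneg (P_nonneg hh.le hf0 x) (qf_nonneg hh hz Q x)
    · rw [hrec, ← P_Vp_add hh Q x]
      have : P h f x ≤ P h (Vp h z Q) x := by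
        refine P_mono hh x (integrable_hk_mul' hh hfi x) ?_ fun y => (hf1 y).trans (m2 y).2
        exact integrable_hk_mul hh (measurable_Vp Q).aestronglyMeasurable (abs_Vp_le hh hz Q) x
      linarith
    · rw [hfun]
      exact (integrable_P hh hfi).add (integrable_qf hh Q).1

lemma integrable_sub_Γ (n : ℕ) :
    Integrable (fun y => uIt Γ h z Q n y - Γ (uIt Γ h z Q n y)) ∧
    Integrable (fun y => Γ (uIt Γ h z Q n y)) := by
  obtain ⟨m1, m2, m3⟩ := uIt_props hh hz Q hΓ n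
  have h2 : Integrable (fun y => Γ (uIt Γ h z Q n y)) := by
    refine m3.mono' (hΓ.mono.measurable.comp m1).aestronglyMeasurable
      (Eventually.of_forall fun x => ?_)
    rw [Real.norm_of_nonneg (hΓ.nonneg (m2 x).1)]
    exact hΓ.le_self (m2 x).1
  exact ⟨m3.sub h2, h2⟩

lemma uIt_mono_succ (n : ℕ) : ∀ x, uIt Γ h z Q n x ≤ uIt Γ h z Q (n + 1) x := by
  induction n with
  | zero =>
    intro x
    exact ((uIt_props hh hz Q hΓ 1).2.1 x).1
  | succ n ih =>
    intro x
    rw [uIt_succ, uIt_succ]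
    have : P h (fun y => uIt Γ h z Q n y - Γ (uIt Γ h z Q n y)) x ≤
        P h (fun y => uIt Γ h z Q (n + 1) y - Γ (uIt Γ h z Q (n + 1) y)) x :=
      P_mono hh x (integrable_hk_mul' hh (integrable_sub_Γ hh hz Q hΓ n).1 x)
        (integrable_hk_mul' hh (integrable_sub_Γ hh hz Q hΓ (n + 1)).1 x)
        fun y => hΓ.sub_mono (ih y)
    linarith

lemma uIt_monotone (x : E3) : Monotone fun n => uIt Γ h z Q n x :=
  monotone_nat_of_le_succ fun n => uIt_mono_succ hh hz Q hΓ n x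

lemma integral_uIt_succ (n : ℕ) : ∫ x, uIt Γ h z Q (n + 1) x =
    (∫ x, uIt Γ h z Q n x) - (∫ x, Γ (uIt Γ h z Q n x)) + 4 * π * h * ∑ i, z i := by
  obtain ⟨h1, h2⟩ := integrable_sub_Γ hh hz Q hΓ n
  have h3 := (uIt_props hh hz Q hΓ n).2.2
  have hfun : uIt Γ h z Q (n + 1) = fun x =>
    P h (fun y => uIt Γ h z Q n y - Γ (uIt Γ h z Q n y)) x + qf h z Q x := rfl
  rw [hfun, integral_add (integrable_P hh h1) (integrable_qf hh Q).1, integral_P hh h1,
    (integrable_qf hh Q).2, integral_sub h3 h2]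

/-- The sum of the masses. -/
lemma sum_integral_Γ (n : ℕ) : ∑ m ∈ Finset.range n, ∫ x, Γ (uIt Γ h z Q m x) =
    n * (4 * π * h * ∑ i, z i) - ∫ x, uIt Γ h z Q n x := by
  induction n with
  | zero =>
    have : uIt Γ h z Q 0 = fun _ => 0 := rfl
    simp [this]
  | succ n ih =>
    rw [Finset.sum_range_succ, ih, integral_uIt_succ hh hz Q hΓ n]
    push_cast
    ring

lemma integral_uIt_nonneg (n : ℕ) : 0 ≤ ∫ x, uIt Γ h z Q n x :=
  integral_nonneg fun x => ((uIt_props hh hz Q hΓ n).2.1 x).1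

lemma integral_Γ_mono {m n : ℕ} (hmn : m ≤ n) :
    ∫ x, Γ (uIt Γ h z Q m x) ≤ ∫ x, Γ (uIt Γ h z Q n x) :=
  integral_mono (integrable_sub_Γ hh hz Q hΓ m).2 (integrable_sub_Γ hh hz Q hΓ n).2
    fun x => hΓ.mono (uIt_monotone hh hz Q hΓ x hmn)

lemma integral_Γ_nonneg (n : ℕ) : 0 ≤ ∫ x, Γ (uIt Γ h z Q n x) :=
  integral_nonneg fun x => hΓ.nonneg ((uIt_props hh hz Q hΓ n).2.1 x).1

/-- A mean value argument. -/
lemma integral_Γ_le_of_sum {B : ℝ} (N : ℕ)
    (hB : ∀ n : ℕ, ∑ m ∈ Finset.range n, ∫ x, Γ (uIt Γ h z Q m x) ≤ n * B) :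
    ∫ x, Γ (uIt Γ h z Q N x) ≤ B := by
  set a := ∫ x, Γ (uIt Γ h z Q N x) with ha
  have ha0 : 0 ≤ a := integral_Γ_nonneg hh hz Q hΓ N
  by_contra hcon
  push Not at hcon
  obtain ⟨M, hM⟩ := exists_nat_gt (N * B / (a - B))
  rw [div_lt_iff₀ (by linarith)] at hM
  have h1 := hB (N + M)
  rw [Finset.sum_range_add] at h1
  have h2 : 0 ≤ ∑ m ∈ Finset.range N, ∫ x, Γ (uIt Γ h z Q m x) :=
    Finset.sum_nonneg fun m _ => integral_Γ_nonneg hh hz Q hΓ m
  have h3 : (M : ℝ) * a ≤ ∑ m ∈ Finset.range M, ∫ x, Γ (uIt Γ h z Q (N + m) x) := by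
    have : ∑ m ∈ Finset.range M, a ≤ ∑ m ∈ Finset.range M, ∫ x, Γ (uIt Γ h z Q (N + m) x) :=
      Finset.sum_le_sum fun m _ => integral_Γ_mono hh hz Q hΓ (Nat.le_add_right N m)
    simpa using this
  push_cast at h1
  nlinarith

/-- The limit of the iteration. -/
noncomputable def uL (Γ : ℝ → ℝ) (h : ℝ) (z : Fin k → ℝ) (Q : Fin k → E3) (x : E3) : ℝ :=
  ⨆ n, uIt Γ h z Q n x

lemma bdd_uIt (x : E3) : BddAbove (range fun n => uIt Γ h z Q n x) :=
  ⟨Vp h z Q x, by rintro _ ⟨n, rfl⟩; exact ((uIt_props hh hz Q hΓ n).2.1 x).2⟩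

lemma tendsto_uIt (x : E3) : Tendsto (fun n => uIt Γ h z Q n x) atTop (𝓝 (uL Γ h z Q x)) :=
  tendsto_atTop_ciSup (uIt_monotone hh hz Q hΓ x) (bdd_uIt hh hz Q hΓ x)

lemma uIt_le_uL (n : ℕ) (x : E3) : uIt Γ h z Q n x ≤ uL Γ h z Q x :=
  le_ciSup (bdd_uIt hh hz Q hΓ x) n

lemma uL_nonneg (x : E3) : 0 ≤ uL Γ h z Q x := uIt_le_uL hh hz Q hΓ 0 x

lemma uL_le (x : E3) : uL Γ h z Q x ≤ Vp h z Q x :=
  ciSup_le fun n => ((uIt_props hh hz Q hΓ n).2.1 x).2

lemma measurable_uL : Measurable (uL Γ h z Q) :=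
  measurable_of_tendsto_metrizable (fun n => (uIt_props hh hz Q hΓ n).1)
    (tendsto_pi_nhds.mpr fun x => tendsto_uIt hh hz Q hΓ x)

/-- The limit is a fixed point. -/
lemma uL_eq (x : E3) : uL Γ h z Q x =
    P h (fun y => uL Γ h z Q y - Γ (uL Γ h z Q y)) x + qf h z Q x := by
  refine tendsto_nhds_unique ((tendsto_add_atTop_iff_nat 1).mpr (tendsto_uIt hh hz Q hΓ x)) ?_
  have h1 : Tendsto (fun n => P h (fun y => uIt Γ h z Q n y - Γ (uIt Γ h z Q n y)) x) atTop
      (𝓝 (P h (fun y => uL Γ h z Q y - Γ (uL Γ h z Q y)) x)) := by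
    unfold P
    refine tendsto_integral_of_dominated_convergence
      (fun y => hk h (x - y) * ((∑ i, z i) * vh h 0)) (fun n => ?_)
      ((integrable_hk_sub hh x).mul_const _) (fun n => ?_) ?_
    · exact (integrable_hk_mul' hh (integrable_sub_Γ hh hz Q hΓ n).1 x).aestronglyMeasurable
    · refine Eventually.of_forall fun y => ?_
      have e0 := ((uIt_props hh hz Q hΓ n).2.1 y)
      have e1 := hΓ.le_self e0.1
      have e2 := hΓ.nonneg e0.1
      have e3 := Vp_le hh hz Q y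
      rw [norm_mul, Real.norm_of_nonneg (hk_nonneg hh.le _), Real.norm_of_nonneg (by linarith)]
      have := hk_nonneg hh.le (x - y)
      gcongr
      linarith
    · refine Eventually.of_forall fun y => ?_
      have e1 := tendsto_uIt hh hz Q hΓ y
      exact (e1.sub ((hΓ.continuous.tendsto _).comp e1)).const_mul _
  exact h1.add_const _

lemma lintegral_Γ_le {B : ℝ} (hB : ∀ n, ∫ x, Γ (uIt Γ h z Q n x) ≤ B) :
    ∫⁻ x, ENNReal.ofReal (Γ (uL Γ h z Q x)) ≤ ENNReal.ofReal B := by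
  have h1 : Tendsto (fun n => ∫⁻ x, ENNReal.ofReal (Γ (uIt Γ h z Q n x))) atTop
      (𝓝 (∫⁻ x, ENNReal.ofReal (Γ (uL Γ h z Q x)))) := by
    refine lintegral_tendsto_of_tendsto_of_monotone (fun n => ?_)
      (Eventually.of_forall fun x => ?_) (Eventually.of_forall fun x => ?_)
    · exact (integrable_sub_Γ hh hz Q hΓ n).2.aestronglyMeasurable.aemeasurable.ennreal_ofReal
    · intro m n hmn
      exact ENNReal.ofReal_le_ofReal (hΓ.mono (uIt_monotone hh hz Q hΓ x hmn))
    · exact (ENNReal.continuous_ofReal.tendsto _).comp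
        ((hΓ.continuous.tendsto _).comp (tendsto_uIt hh hz Q hΓ x))
  refine le_of_tendsto' h1 fun n => ?_
  rw [← ofReal_integral_eq_lintegral_ofReal (integrable_sub_Γ hh hz Q hΓ n).2
    (Eventually.of_forall fun x => hΓ.nonneg ((uIt_props hh hz Q hΓ n).2.1 x).1)]
  exact ENNReal.ofReal_le_ofReal (hB n)

lemma integral_Γ_le (n : ℕ) : ∫ x, Γ (uIt Γ h z Q n x) ≤ 4 * π * h * ∑ i, z i := by
  refine integral_Γ_le_of_sum hh hz Q hΓ n fun m => ?_
  rw [sum_integral_Γ hh hz Q hΓ m]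
  have := integral_uIt_nonneg hh hz Q hΓ m
  linarith

lemma integrable_Γ_uL : Integrable (fun x => Γ (uL Γ h z Q x)) := by
  refine ⟨(hΓ.continuous.measurable.comp (measurable_uL hh hz Q hΓ)).aestronglyMeasurable, ?_⟩
  rw [hasFiniteIntegral_iff_ofReal (Eventually.of_forall fun x =>
    hΓ.nonneg (uL_nonneg hh hz Q hΓ x))]
  exact (lintegral_Γ_le hh hz Q hΓ (integral_Γ_le hh hz Q hΓ)).trans_lt ENNReal.ofReal_lt_top

lemma tendsto_integral_Γ : Tendsto (fun n => ∫ x, Γ (uIt Γ h z Q n x)) atTop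
    (𝓝 (∫ x, Γ (uL Γ h z Q x))) :=
  integral_tendsto_of_tendsto_of_monotone (fun n => (integrable_sub_Γ hh hz Q hΓ n).2)
    (integrable_Γ_uL hh hz Q hΓ)
    (Eventually.of_forall fun x _ _ hmn => hΓ.mono (uIt_monotone hh hz Q hΓ x hmn))
    (Eventually.of_forall fun x => (hΓ.continuous.tendsto _).comp (tendsto_uIt hh hz Q hΓ x))

lemma integral_Γ_le_uL (n : ℕ) : ∫ x, Γ (uIt Γ h z Q n x) ≤ ∫ x, Γ (uL Γ h z Q x) :=
  integral_mono (integrable_sub_Γ hh hz Q hΓ n).2 (integrable_Γ_uL hh hz Q hΓ)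
    fun x => hΓ.mono (uIt_le_uL hh hz Q hΓ n x)

lemma integral_Γ_uL_le : ∫ x, Γ (uL Γ h z Q x) ≤ 4 * π * h * ∑ i, z i :=
  le_of_tendsto' (tendsto_integral_Γ hh hz Q hΓ) fun n => integral_Γ_le hh hz Q hΓ n

lemma integral_Γ_uL_nonneg : 0 ≤ ∫ x, Γ (uL Γ h z Q x) :=
  integral_nonneg fun x => hΓ.nonneg (uL_nonneg hh hz Q hΓ x)

/-- Comparison of the limits. -/
lemma integral_Γ_uL_anti {Q' : Fin k → E3}
    (hU : ∀ n, ∫ x, uIt Γ h z Q n x ≤ ∫ x, uIt Γ h z Q' n x) :
    ∫ x, Γ (uL Γ h z Q' x) ≤ ∫ x, Γ (uL Γ h z Q x) := by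
  refine le_of_tendsto' (tendsto_integral_Γ hh hz Q' hΓ) fun n => ?_
  refine integral_Γ_le_of_sum hh hz Q' hΓ n fun m => ?_
  rw [sum_integral_Γ hh hz Q' hΓ m]
  have h1 := hU m
  have h2 := sum_integral_Γ hh hz Q hΓ m
  have h3 : ∑ j ∈ Finset.range m, ∫ x, Γ (uIt Γ h z Q j x) ≤
      ∑ j ∈ Finset.range m, ∫ x, Γ (uL Γ h z Q x) :=
    Finset.sum_le_sum fun j _ => integral_Γ_le_uL hh hz Q hΓ j
  rw [Finset.sum_const, Finset.card_range, nsmul_eq_mul] at h3
  linarith

/-- The potential equation. -/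
lemma uL_potential (x : E3) :
    4 * π * h * (Vp h z Q x - uL Γ h z Q x) = Cf h (fun y => Γ (uL Γ h z Q y)) x := by
  set g : E3 → ℝ := fun y => Γ (uL Γ h z Q y) with hg
  have hgi : Integrable g := integrable_Γ_uL hh hz Q hΓ
  have hgm : Measurable g := hΓ.continuous.measurable.comp (measurable_uL hh hz Q hΓ)
  set w : E3 → ℝ := fun y => Vp h z Q y - uL Γ h z Q y with hw
  have hwm : Measurable w := (measurable_Vp Q).sub (measurable_uL hh hz Q hΓ)
  have hw0 : ∀ y, 0 ≤ w y := fun y => by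
    have := uL_le hh hz Q hΓ y
    simp only [hw]; linarith
  have hw1 : ∀ y, w y ≤ Vp h z Q y := fun y => by
    have := uL_nonneg hh hz Q hΓ y
    simp only [hw]; linarith
  have hwb : ∀ y, |w y| ≤ (∑ i, z i) * vh h 0 := fun y => by
    rw [abs_of_nonneg (hw0 y)]
    exact (hw1 y).trans (Vp_le hh hz Q y)
  have hub : ∀ y, |uL Γ h z Q y| ≤ (∑ i, z i) * vh h 0 := fun y => by
    rw [abs_of_nonneg (uL_nonneg hh hz Q hΓ y)]
    exact (uL_le hh hz Q hΓ y).trans (Vp_le hh hz Q y)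
  -- the basic identity
  have hstep : ∀ y, w y = P h w y + P h g y := by
    intro y
    have iV := integrable_hk_mul hh (measurable_Vp (h := h) (z := z) Q).aestronglyMeasurable
      (abs_Vp_le hh hz Q) y
    have iu := integrable_hk_mul hh (measurable_uL hh hz Q hΓ).aestronglyMeasurable hub y
    have ig := integrable_hk_mul' hh hgi y
    have e1 := P_Vp_add (z := z) hh Q y
    have e2 := uL_eq hh hz Q hΓ y
    rw [P_sub y iu ig] at e2
    have e3 : P h w y = P h (Vp h z Q) y - P h (uL Γ h z Q) y := P_sub y iV iu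
    rw [e3]
    simp only [hw]
    linarith
  -- the iterated identity
  have hiter : ∀ N : ℕ, w x = P (((N : ℝ) + 1) * h) w x +
      ∑ j ∈ Finset.range (N + 1), P (((j : ℝ) + 1) * h) g x := by
    intro N
    induction N with
    | zero => simpa using hstep x
    | succ N ih =>
      rw [Finset.sum_range_succ]
      have hN := tpos hh N
      have e1 : P (((N : ℝ) + 1) * h) w x = P (((N : ℝ) + 1) * h) (fun y => P h w y + P h g y) x := by
        congr 1
        ext y
        exact hstep y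
      have i1 : Integrable (fun y => hk (((N : ℝ) + 1) * h) (x - y) * P h w y) :=
        integrable_hk_mul hN (measurable_P hwm).aestronglyMeasurable (fun y => abs_P_le hh hwb y) x
      have i2 : Integrable (fun y => hk (((N : ℝ) + 1) * h) (x - y) * P h g y) :=
        integrable_hk_mul' hN (integrable_P hh hgi) x
      rw [P_add x i1 i2, P_P hN hh hwm.aestronglyMeasurable hwb, P_P_int hN hh hgi] at e1
      have e2 : ((N : ℝ) + 1) * h + h = (((N + 1 : ℕ) : ℝ) + 1) * h := by push_cast; ring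
      rw [e2] at e1
      rw [e1] at ih
      linarith
  -- the limit
  have hlim : Tendsto (fun N : ℕ => P (((N : ℝ) + 1) * h) w x) atTop (𝓝 0) := by
    have hVlim : Tendsto (fun N : ℕ => (∑ i, z i) * vh (((N : ℝ) + 1) * h + h) 0) atTop (𝓝 0) := by
      have h1 : Tendsto (fun N : ℕ => ((N : ℝ) + 1) * h + h) atTop atTop := by
        refine tendsto_atTop_add_const_right _ _ ?_
        refine Tendsto.atTop_mul_const hh ?_
        exact tendsto_atTop_add_const_right _ _ tendsto_natCast_atTop_atTop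
      have h2 := (tendsto_vh_zero.comp h1).const_mul (∑ i, z i)
      rw [mul_zero] at h2
      exact h2
    refine squeeze_zero (fun N => P_nonneg (tpos hh N).le hw0 x) (fun N => ?_) hVlim
    have hN := tpos hh N
    have e1 : P (((N : ℝ) + 1) * h) w x ≤ P (((N : ℝ) + 1) * h) (Vp h z Q) x :=
      P_mono hN x (integrable_hk_mul hN hwm.aestronglyMeasurable hwb x)
        (integrable_hk_mul hN (measurable_Vp Q).aestronglyMeasurable (abs_Vp_le hh hz Q) x) hw1
    rw [P_Vp hh Q hN] at e1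
    exact e1.trans (Vp_le (by linarith) hz Q x)
  have hsum : Tendsto (fun N : ℕ => ∑ j ∈ Finset.range (N + 1), P (((j : ℝ) + 1) * h) g x) atTop
      (𝓝 (w x)) := by
    have h1 : Tendsto (fun N : ℕ => w x - P (((N : ℝ) + 1) * h) w x) atTop (𝓝 (w x - 0)) :=
      tendsto_const_nhds.sub hlim
    rw [sub_zero] at h1
    refine h1.congr fun N => ?_
    rw [sub_eq_iff_eq_add, add_comm]
    exact hiter N
  have hC := ((hasSum_Cf hh hgi x).tendsto_sum_nat.comp (tendsto_add_atTop_nat 1))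
  have hC2 : Tendsto (fun N : ℕ => 4 * π * h *
      ∑ j ∈ Finset.range (N + 1), P (((j : ℝ) + 1) * h) g x) atTop (𝓝 (4 * π * h * w x)) :=
    hsum.const_mul _
  refine tendsto_nhds_unique hC2 (hC.congr fun N => ?_)
  simp only [Function.comp]
  rw [Finset.mul_sum]

end iteration

end Pool.Agent.H82.TF
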