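import Mathlib

/-!
# The partition argument
-/

namespace Pool.Agent.H82.TF

open Set

theorem partition_arg {J J' L L' : ℝ → ℝ} {Z m M : ℝ} (hm : 0 < m) (hmM : m < M)
    (hJ : ∀ s s', 0 < s → 0 < s' → J s' ≤ J s + (s' - s) * L s)
    (hJ' : ∀ s s', 0 < s → 0 < s' → J' s' ≤ J' s + (s' - s) * L' s)
    (hL : ∀ s, 0 < s → L' s ≤ L s) (hL0 : ∀ s, 0 < s → 0 ≤ L s) (hLZ : ∀ s, 0 < s → L s ≤ Z)
    {δ : ℝ} (hδ : 0 < δ) : J' M + J m ≤ J M + J' m + δ := by
  have hZ : 0 ≤ Z := (hL0 m hm).trans (hLZ m hm)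
  obtain ⟨N, hN⟩ := exists_nat_gt ((M - m) * Z / δ)
  have hNpos : 0 < N := by
    have h0 : 0 ≤ (M - m) * Z / δ := by
      have : 0 < M - m := by linarith
      positivity
    have : (0 : ℝ) < N := lt_of_le_of_lt h0 hN
    exact_mod_cast this
  have hNr : (0 : ℝ) < N := by exact_mod_cast hNpos
  set d : ℝ := (M - m) / N with hd
  have hd0 : 0 < d := div_pos (by linarith) hNr
  have key : ∀ n : ℕ, J' (m + n * d) - J' m ≤ J (m + n * d) - J m +
      d * (L m - L (m + n * d)) := by
    intro n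
    induction n with
    | zero => simp
    | succ n ih =>
      have hs : 0 < m + n * d := by positivity
      have hs' : 0 < m + (n + 1 : ℕ) * d := by positivity
      have h1 := hJ' _ _ hs hs'
      have h2 := hJ _ _ hs' hs
      have h3 := hL _ hs
      have e1 : (m + (n + 1 : ℕ) * d) - (m + n * d) = d := by push_cast; ring
      have e2 : (m + n * d) - (m + (n + 1 : ℕ) * d) = -d := by push_cast; ring
      rw [e1] at h1
      rw [e2] at h2
      have h4 : d * L' (m + n * d) ≤ d * L (m + n * d) := by gcongr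
      linarith
  have h := key N
  have hMN : m + N * d = M := by rw [hd]; field_simp; ring
  rw [hMN] at h
  have h5 : d * (L m - L M) ≤ d * Z := by
    have := hL0 M (by linarith)
    have := hLZ m hm
    gcongr
    linarith
  have h6 : d * Z ≤ δ := by
    rw [hd, div_mul_eq_mul_div, div_le_iff₀ hNr]
    rw [div_lt_iff₀ hδ] at hN
    linarith
  linarith

end Pool.Agent.H82.TF
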