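import Mathlib
import Pool.Agent.H82.TF.Iter
import Pool.Agent.H82.TF.GFun
import Pool.Agent.H82.TF.Partition

/-!
# PART II: decreasing differences for the discretised functional
-/

open MeasureTheory Real Set Pool.Agent.H29.TF Filter Topology

namespace Pool.Agent.H82.TF

variable {k : ℕ}

section minimiser

variable {h : ℝ} (hh : 0 < h) {z : Fin k → ℝ} (hz : ∀ i, 0 < z i) (R : Fin k → E3)
  {G : ℝ → ℝ} (hG0 : ∀ t, 0 ≤ G t) (hGz : ∀ t ≤ 0, G t = 0) (hGm : Monotone G)
  (hGL : ∀ a b, a ≤ b → G b - G a ≤ (b - a) / (4 * π * h))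
  (hY : ∀ t s, 0 ≤ s → (3 / 5) * (G t) ^ ((5 : ℝ) / 3) + (4 * π * h) / 2 * (G t) ^ 2 +
      t * (s - G t) ≤ (3 / 5) * s ^ ((5 : ℝ) / 3) + (4 * π * h) / 2 * s ^ 2)

include hh hGz hGm hGL in
lemma nonlin {μ : ℝ} (hμ : 0 < μ) : Nonlin (fun u => 4 * π * h * G (u - μ)) where
  mono := fun a b hab => by
    exact mul_le_mul_of_nonneg_left (hGm (sub_le_sub_right hab μ)) (by positivity)
  lip := fun a b hab => by
    have h1 := hGL (a - μ) (b - μ) (by linarith)
    have hc : 0 < 4 * π * h := by positivity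
    rw [le_div_iff₀ hc] at h1
    linarith
  zero := by
    beta_reduce
    rw [hGz _ (by linarith), mul_zero]

/-- The minimiser. -/
noncomputable def rm (G : ℝ → ℝ) (h : ℝ) (z : Fin k → ℝ) (R : Fin k → E3) (μ l : ℝ) (x : E3) : ℝ :=
  G (uL (fun u => 4 * π * h * G (u - μ)) h z (fun i => l • R i) x - μ)

include hh hz hG0 hGz hGm hGL

lemma rm_integrable {μ : ℝ} (hμ : 0 < μ) (l : ℝ) : Integrable (rm G h z R μ l) := by
  have h1 := integrable_Γ_uL hh hz (fun i => l • R i) (nonlin hh hGz hGm hGL hμ)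
  have h2 := h1.const_mul (4 * π * h)⁻¹
  refine h2.congr (Eventually.of_forall fun x => ?_)
  unfold rm
  field_simp

lemma rm_bound {μ : ℝ} (hμ : 0 < μ) (l : ℝ) : ∃ B, 0 ≤ B ∧ ∀ x, rm G h z R μ l x ≤ B := by
  refine ⟨G ((∑ i, z i) * vh h 0 - μ), hG0 _, fun x => ?_⟩
  unfold rm
  apply hGm
  have h1 := uL_le hh hz (fun i => l • R i) (nonlin hh hGz hGm hGL hμ) x
  have h2 := Vp_le hh hz (fun i => l • R i) x
  linarith

lemma rm_adm {μ : ℝ} (hμ : 0 < μ) (l : ℝ) : Adm2 (rm G h z R μ l) := by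
  have h1 := rm_integrable hh hz R hG0 hGz hGm hGL hμ l
  obtain ⟨B, hB0, hB⟩ := rm_bound hh hz R hG0 hGz hGm hGL hμ l
  have hm : AEMeasurable (rm G h z R μ l) := h1.aestronglyMeasurable.aemeasurable
  have h0 : ∀ x, 0 ≤ rm G h z R μ l x := fun x => hG0 _
  refine ⟨⟨h0, h1, ?_⟩, ?_⟩
  · refine (h1.const_mul (B ^ ((2 : ℝ) / 3))).mono' (hm.pow_const _).aestronglyMeasurable
      (Eventually.of_forall fun x => ?_)
    have e1 : rm G h z R μ l x ^ ((5 : ℝ) / 3) =
        rm G h z R μ l x ^ ((2 : ℝ) / 3) * rm G h z R μ l x := by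
      rcases (h0 x).eq_or_lt with e | e
      · rw [← e, Real.zero_rpow (by norm_num), mul_zero]
      · nth_rewrite 3 [← Real.rpow_one (rm G h z R μ l x)]
        rw [← Real.rpow_add e]
        norm_num
    rw [Real.norm_of_nonneg (by have := h0 x; positivity), e1]
    have := h0 x
    gcongr
    exact hB x
  · refine (h1.const_mul B).mono' (hm.pow_const 2).aestronglyMeasurable
      (Eventually.of_forall fun x => ?_)
    rw [Real.norm_of_nonneg (by positivity), pow_two]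
    have := h0 x
    gcongr
    exact hB x

omit hG0 in
lemma rm_potential {μ : ℝ} (hμ : 0 < μ) (l : ℝ) (x : E3) :
    uL (fun u => 4 * π * h * G (u - μ)) h z (fun i => l • R i) x =
      Vp h z (fun i => l • R i) x - Cf h (rm G h z R μ l) x := by
  have h1 := uL_potential hh hz (fun i => l • R i) (nonlin hh hGz hGm hGL hμ) x
  have h2 : Cf h (fun y => 4 * π * h * G (uL (fun u => 4 * π * h * G (u - μ)) h z
      (fun i => l • R i) y - μ)) x = 4 * π * h * Cf h (rm G h z R μ l) x := by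
    unfold Cf rm
    rw [← integral_const_mul]
    congr 1; ext y; ring
  rw [h2] at h1
  have hc : (4 * π * h) ≠ 0 := by positivity
  have h3 := mul_left_cancel₀ hc h1
  linarith

lemma rm_mass {μ : ℝ} (hμ : 0 < μ) (l : ℝ) :
    0 ≤ ∫ x, rm G h z R μ l x ∧ ∫ x, rm G h z R μ l x ≤ ∑ i, z i := by
  refine ⟨integral_nonneg fun x => hG0 _, ?_⟩
  have h1 := integral_Γ_uL_le hh hz (fun i => l • R i) (nonlin hh hGz hGm hGL hμ)
  have h2 : ∫ x, 4 * π * h * G (uL (fun u => 4 * π * h * G (u - μ)) h z (fun i => l • R i) x - μ) =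
      4 * π * h * ∫ x, rm G h z R μ l x := by
    rw [← integral_const_mul]; rfl
  rw [h2] at h1
  have hc : 0 < 4 * π * h := by positivity
  exact le_of_mul_le_mul_left h1 hc

omit hG0 in
lemma rm_mass_anti {μ : ℝ} (hμ : 0 < μ) {l l' : ℝ}
    (hU : ∀ n, ∫ x, uIt (fun u => 4 * π * h * G (u - μ)) h z (fun i => l • R i) n x ≤
      ∫ x, uIt (fun u => 4 * π * h * G (u - μ)) h z (fun i => l' • R i) n x) :
    ∫ x, rm G h z R μ l' x ≤ ∫ x, rm G h z R μ l x := by
  have h1 := integral_Γ_uL_anti hh hz (fun i => l • R i) (nonlin hh hGz hGm hGL hμ) hU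
  have h2 : ∀ l, ∫ x, 4 * π * h * G (uL (fun u => 4 * π * h * G (u - μ)) h z
      (fun i => l • R i) x - μ) = 4 * π * h * ∫ x, rm G h z R μ l x := by
    intro l
    rw [← integral_const_mul]; rfl
  rw [h2, h2] at h1
  have hc : 0 < 4 * π * h := by positivity
  exact le_of_mul_le_mul_left h1 hc

include hY in
/-- The minimising property. -/
lemma rm_min {μ : ℝ} (hμ : 0 < μ) (l : ℝ) {s : E3 → ℝ} (hs : Adm2 s) :
    Fh h z R μ l (rm G h z R μ l) ≤ Fh h z R μ l s := by
  set r := rm G h z R μ l with hr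
  have hra : Adm2 r := rm_adm hh hz R hG0 hGz hGm hGL hμ l
  obtain ⟨⟨hr0, hr1, hr53⟩, hr2⟩ := hra
  obtain ⟨⟨hs0, hs1, hs53⟩, hs2⟩ := hs
  set Q : Fin k → E3 := fun i => l • R i with hQ
  set u := uL (fun u => 4 * π * h * G (u - μ)) h z Q with hu
  set V := Vp h z Q with hV
  have hNL := nonlin hh hGz hGm hGL hμ
  have hpot : ∀ x, u x = V x - Cf h r x := fun x => rm_potential hh hz R hGz hGm hGL hμ l x
  have hVm : Measurable V := measurable_Vp Q
  have hVb : ∀ x, |V x| ≤ (∑ i, z i) * vh h 0 := abs_Vp_le hh hz Q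
  have hum : Measurable u := measurable_uL hh hz Q hNL
  have hub : ∀ x, |u x| ≤ (∑ i, z i) * vh h 0 := fun x => by
    rw [abs_of_nonneg (uL_nonneg hh hz Q hNL x)]
    exact (uL_le hh hz Q hNL x).trans (Vp_le hh hz Q x)
  -- integrability
  have iVs : Integrable (fun x => V x * s x) :=
    hs1.bdd_mul hVm.aestronglyMeasurable (Eventually.of_forall hVb)
  have iVr : Integrable (fun x => V x * r x) :=
    hr1.bdd_mul hVm.aestronglyMeasurable (Eventually.of_forall hVb)
  have ius : Integrable (fun x => u x * s x) :=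
    hs1.bdd_mul hum.aestronglyMeasurable (Eventually.of_forall hub)
  have iur : Integrable (fun x => u x * r x) :=
    hr1.bdd_mul hum.aestronglyMeasurable (Eventually.of_forall hub)
  have iCs : Integrable (fun x => s x * Cf h r x) := integrable_mul_Cf hh hs1 hr1
  have iCr : Integrable (fun x => r x * Cf h r x) := integrable_mul_Cf hh hr1 hr1
  -- pointwise Young inequality, integrated
  have hpt : ∀ x, (3 / 5) * r x ^ ((5 : ℝ) / 3) + 2 * π * h * r x ^ 2 + ((u x * s x - u x * r x) -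
      (μ * s x - μ * r x)) ≤ (3 / 5) * s x ^ ((5 : ℝ) / 3) + 2 * π * h * s x ^ 2 := by
    intro x
    have := hY (u x - μ) (s x) (hs0 x)
    have e : r x = G (u x - μ) := rfl
    rw [← e] at this
    have e2 : 4 * π * h / 2 = 2 * π * h := by ring
    rw [e2] at this
    linarith
  have hint : (3 / 5 : ℝ) * (∫ x, r x ^ ((5 : ℝ) / 3)) + 2 * π * h * (∫ x, r x ^ 2) +
      (((∫ x, u x * s x) - ∫ x, u x * r x) - (μ * (∫ x, s x) - μ * ∫ x, r x)) ≤
      (3 / 5 : ℝ) * (∫ x, s x ^ ((5 : ℝ) / 3)) + 2 * π * h * (∫ x, s x ^ 2) := by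
    have a1 : Integrable (fun x => (3 / 5 : ℝ) * r x ^ ((5 : ℝ) / 3)) := hr53.const_mul _
    have a2 : Integrable (fun x => 2 * π * h * r x ^ 2) := hr2.const_mul _
    have a3 : Integrable (fun x => (3 / 5 : ℝ) * s x ^ ((5 : ℝ) / 3)) := hs53.const_mul _
    have a4 : Integrable (fun x => 2 * π * h * s x ^ 2) := hs2.const_mul _
    have a5 : Integrable (fun x => μ * s x) := hs1.const_mul _
    have a6 : Integrable (fun x => μ * r x) := hr1.const_mul _
    have a7 : Integrable (fun x => u x * s x - u x * r x) := ius.sub iur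
    have a8 : Integrable (fun x => μ * s x - μ * r x) := a5.sub a6
    have a9 : Integrable (fun x => (u x * s x - u x * r x) - (μ * s x - μ * r x)) := a7.sub a8
    have a10 : Integrable (fun x => (3 / 5 : ℝ) * r x ^ ((5 : ℝ) / 3) + 2 * π * h * r x ^ 2) :=
      a1.add a2
    have a11 : Integrable (fun x => (3 / 5 : ℝ) * s x ^ ((5 : ℝ) / 3) + 2 * π * h * s x ^ 2) :=
      a3.add a4
    have a12 : Integrable (fun x => (3 / 5 : ℝ) * r x ^ ((5 : ℝ) / 3) + 2 * π * h * r x ^ 2 +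
        ((u x * s x - u x * r x) - (μ * s x - μ * r x))) := a10.add a9
    have e1 := integral_mono a12 a11 hpt
    rw [integral_add a10 a9, integral_add a1 a2, integral_sub a7 a8, integral_sub ius iur,
      integral_sub a5 a6, integral_add a3 a4,
      integral_const_mul, integral_const_mul, integral_const_mul, integral_const_mul,
      integral_const_mul, integral_const_mul] at e1
    exact e1
  -- the potential
  have hus : ∫ x, u x * s x = (∫ x, V x * s x) - ∫ x, s x * Cf h r x := by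
    rw [← integral_sub iVs iCs]
    congr 1; ext x
    rw [hpot]; ring
  have hur : ∫ x, u x * r x = (∫ x, V x * r x) - ∫ x, r x * Cf h r x := by
    rw [← integral_sub iVr iCr]
    congr 1; ext x
    rw [hpot]; ring
  -- the quadratic form
  have hq : 0 ≤ (∫ x, s x * Cf h s x) - 2 * (∫ x, s x * Cf h r x) + ∫ x, r x * Cf h r x := by
    have hd : Integrable (fun x => s x - r x) := hs1.sub hr1
    have e1 := Cf_form_nonneg hh hd
    have e2 : ∫ x, (s x - r x) * Cf h (fun y => s y - r y) x =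
        (∫ x, s x * Cf h s x) - (∫ x, s x * Cf h r x) - ((∫ x, r x * Cf h s x) -
          ∫ x, r x * Cf h r x) := by
      have i1 := integrable_mul_Cf hh hs1 hs1
      have i2 := integrable_mul_Cf hh hr1 hs1
      have b1 : Integrable (fun x => s x * Cf h s x - s x * Cf h r x) := i1.sub iCs
      have b2 : Integrable (fun x => r x * Cf h s x - r x * Cf h r x) := i2.sub iCr
      rw [← integral_sub i1 iCs, ← integral_sub i2 iCr, ← integral_sub b1 b2]
      congr 1; ext x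
      rw [Cf_sub hh hs1 hr1]; ring
    rw [e2, Cf_symm hh hr1 hs1] at e1
    linarith
  unfold Fh
  rw [integral_integral_Ch, integral_integral_Ch]
  have eV : ∀ x, ∑ i, z i * vh h (x - l • R i) = V x := fun x => rfl
  simp only [eV]
  rw [hus, hur] at hint
  linarith

end minimiser

/-- PART II, with the monotonicity of the masses of the iterates as a hypothesis. -/
theorem DDh_of_U (h : ℝ) (hh : 0 < h) (z : Fin k → ℝ) (hz : ∀ i, 0 < z i) (R : Fin k → E3)
    (hU : ∀ (Γ : ℝ → ℝ), ConvexOn ℝ univ Γ → Monotone Γ → (∀ a b, a ≤ b → Γ b - Γ a ≤ b - a) →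
      ∀ μ : ℝ, 0 < μ → (∀ u ≤ μ, Γ u = 0) → ∀ l l' : ℝ, 0 < l → l ≤ l' → ∀ n : ℕ,
      ∫ x, uIt Γ h z (fun i => l • R i) n x ≤ ∫ x, uIt Γ h z (fun i => l' • R i) n x)
    (μ₁ μ₂ l l' : ℝ) (h2 : 0 < μ₂) (h12 : μ₂ < μ₁) (hl : 0 < l) (hll : l ≤ l')
    (σ τ : E3 → ℝ) (hσ : Adm2 σ) (hτ : Adm2 τ) (δ : ℝ) (hδ : 0 < δ) :
    ∃ ρ ρ' : E3 → ℝ, Adm2 ρ ∧ Adm2 ρ' ∧
      Fh h z R μ₁ l' ρ + Fh h z R μ₂ l ρ' ≤ Fh h z R μ₁ l σ + Fh h z R μ₂ l' τ + δ := by
  obtain ⟨G, hG0, hGz, hGm, hGc, hGL, hY⟩ := exists_G (4 * π * h) (by positivity)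
  have h1 : 0 < μ₁ := h2.trans h12
  have hUG : ∀ μ : ℝ, 0 < μ → ∀ n, ∫ x, uIt (fun u => 4 * π * h * G (u - μ)) h z
      (fun i => l • R i) n x ≤
      ∫ x, uIt (fun u => 4 * π * h * G (u - μ)) h z (fun i => l' • R i) n x := by
    intro μ hμ n
    have hNL := nonlin hh hGz hGm hGL hμ
    refine hU _ ?_ hNL.mono hNL.lip μ hμ ?_ l l' hl hll n
    · have e1 : ConvexOn ℝ univ (fun u => G (u - μ)) := by
        have := hGc.translate_left (-μ)
        simpa [Function.comp_def, sub_eq_add_neg, add_comm] using this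
      exact e1.smul (by positivity : 0 ≤ 4 * π * h)
    · intro u hu
      rw [hGz _ (by linarith), mul_zero]
  have hJ : ∀ l, ∀ s s', 0 < s → 0 < s' → Fh h z R s' l (rm G h z R s' l) ≤
      Fh h z R s l (rm G h z R s l) + (s' - s) * ∫ x, rm G h z R s l x := by
    intro l s s' hs hs'
    refine (rm_min hh hz R hG0 hGz hGm hGL hY hs' l
      (rm_adm hh hz R hG0 hGz hGm hGL hs l)).trans (le_of_eq ?_)
    unfold Fh
    ring
  have hp := partition_arg (J := fun s => Fh h z R s l (rm G h z R s l))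
    (J' := fun s => Fh h z R s l' (rm G h z R s l')) (L := fun s => ∫ x, rm G h z R s l x)
    (L' := fun s => ∫ x, rm G h z R s l' x) (Z := ∑ i, z i) h2 h12 (hJ l) (hJ l')
    (fun s hs => rm_mass_anti hh hz R hGz hGm hGL hs (hUG s hs))
    (fun s hs => (rm_mass hh hz R hG0 hGz hGm hGL hs l).1)
    (fun s hs => (rm_mass hh hz R hG0 hGz hGm hGL hs l).2) hδ
  refine ⟨rm G h z R μ₁ l', rm G h z R μ₂ l, rm_adm hh hz R hG0 hGz hGm hGL h1 l',
    rm_adm hh hz R hG0 hGz hGm hGL h2 l, ?_⟩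
  have m1 := rm_min hh hz R hG0 hGz hGm hGL hY h1 l hσ
  have m2 := rm_min hh hz R hG0 hGz hGm hGL hY h2 l' hτ
  linarith

end Pool.Agent.H82.TF
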