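import Pool.Agent.H29.TF.CoreDefs
import Pool.Agent.H82.TF.Iter

/-!
# Fubini in `t` and second order Taylor bound for the heat semigroup
-/

open MeasureTheory Real Set Pool.Agent.H29.TF Filter Topology

namespace Pool.Agent.H82.TF

section gen

variable {V : Type*} [NormedAddCommGroup V] [InnerProductSpace ℝ V]
variable [MeasurableSpace V] [BorelSpace V] [FiniteDimensional ℝ V]

lemma integrable_fubT {h : ℝ} (hh : 0 < h) {f : V → ℝ} (hf : Measurable f) {C : ℝ}
    (hC : ∀ x, |f x| ≤ C) (y : V) :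
    Integrable (fun q : ℝ × V => hk q.1 (y - q.2) * f q.2)
      ((volume.restrict (Ioc h (2 * h))).prod volume) := by
  have hm : AEStronglyMeasurable (fun q : ℝ × V => hk q.1 (y - q.2) * f q.2)
      ((volume.restrict (Ioc h (2 * h))).prod volume) := by
    refine Measurable.aestronglyMeasurable ?_
    refine Measurable.mul ?_ (hf.comp measurable_snd)
    exact measurable_hk_uncurry.comp (measurable_fst.prodMk (measurable_const.sub measurable_snd))
  rw [integrable_prod_iff hm]
  constructor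
  · refine (ae_restrict_iff' measurableSet_Ioc).mpr (Filter.Eventually.of_forall fun t ht => ?_)
    exact integrable_hk_mul (hh.trans ht.1) hf.aestronglyMeasurable hC y
  · have h1 : IntegrableOn (fun _ : ℝ => C) (Ioc h (2 * h)) := integrableOn_const (by simp)
    refine Integrable.mono' h1 hm.norm.integral_prod_right' ?_
    refine (ae_restrict_iff' measurableSet_Ioc).mpr (Filter.Eventually.of_forall fun t ht => ?_)
    have ht0 : 0 < t := hh.trans ht.1
    rw [Real.norm_of_nonneg (integral_nonneg fun _ => norm_nonneg _)]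
    have h2 : ∫ x, ‖hk t (y - x) * f x‖ ≤ ∫ x, hk t (y - x) * C := by
      refine integral_mono (integrable_hk_mul ht0 hf.aestronglyMeasurable hC y).norm
        ((integrable_hk_sub ht0 y).mul_const C) fun x => ?_
      simp only [norm_mul]
      rw [Real.norm_of_nonneg (hk_nonneg ht0.le _), Real.norm_eq_abs]
      exact mul_le_mul_of_nonneg_left (hC x) (hk_nonneg ht0.le _)
    rwa [integral_mul_const, integral_hk_sub ht0, one_mul] at h2

lemma integrableOn_P_t {h : ℝ} (hh : 0 < h) {f : V → ℝ} (hf : Measurable f) {C : ℝ}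
    (hC : ∀ x, |f x| ≤ C) (y : V) : IntegrableOn (fun t => P t f y) (Ioc h (2 * h)) :=
  (integrable_fubT hh hf hC y).integral_prod_left

lemma fubT {h : ℝ} (hh : 0 < h) {f : V → ℝ} (hf : Measurable f) {C : ℝ}
    (hC : ∀ x, |f x| ≤ C) (y : V) :
    ∫ x, f x * (∫ t in Ioc h (2 * h), hk t (x - y)) = ∫ t in Ioc h (2 * h), P t f y := by
  unfold P
  rw [integral_integral_swap (f := fun t x => hk t (y - x) * f x) (integrable_fubT hh hf hC y)]
  congr 1; ext x
  rw [integral_mul_const, mul_comm]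
  congr 2; ext t
  rw [hk_sub_comm]

/-- uniform gradient bound -/
lemma grad_bound {s : ℝ} (hs : 0 < s) : ∃ D : ℝ, 0 ≤ D ∧ ∀ (f : V → ℝ), AEStronglyMeasurable f volume →
    ∀ C : ℝ, (∀ x, |f x| ≤ C) → ∀ x, ∃ L : V →L[ℝ] ℝ, HasFDerivAt (𝕜 := ℝ) (P s f) L x ∧ ‖L‖ ≤ C * D := by
  refine ⟨(1 / (2 * s)) * ∫ x : V, (1 + ‖x‖) * hk s x, ?_, fun f hf C hC x => ?_⟩
  · exact mul_nonneg (by positivity) (integral_nonneg fun x => mul_nonneg (by positivity) (hk_nonneg hs.le _))
  · refine ⟨_, hasFDerivAt_P hs hf hC x, ?_⟩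
    have hC0 : 0 ≤ C := (abs_nonneg _).trans (hC 0)
    have e1 : C * ((1 / (2 * s)) * ∫ x : V, (1 + ‖x‖) * hk s x) =
        ∫ y : V, (1 / (2 * s)) * C * ((1 + ‖x - y‖) * hk s (x - y)) := by
      rw [integral_const_mul, integral_sub_left_eq_self (fun v : V => (1 + ‖v‖) * hk s v) volume x]
      ring
    rw [e1]
    apply norm_integral_le_of_norm_le
    · exact ((integrable_one_add_norm_mul_hk hs).comp_sub_left x).const_mul _
    · refine Filter.Eventually.of_forall fun y => ?_
      rw [norm_smul, innerSL_apply_norm, norm_mul, norm_neg, norm_mul,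
        Real.norm_of_nonneg (by positivity : 0 ≤ 1 / (2 * s)),
        Real.norm_of_nonneg (hk_nonneg hs.le _), Real.norm_eq_abs]
      have h3 : ‖x - y‖ * hk s (x - y) ≤ (1 + ‖x - y‖) * hk s (x - y) :=
        mul_le_mul_of_nonneg_right (by linarith) (hk_nonneg hs.le _)
      calc 1 / (2 * s) * (hk s (x - y) * |f y|) * ‖x - y‖
          = 1 / (2 * s) * |f y| * (‖x - y‖ * hk s (x - y)) := by ring
        _ ≤ 1 / (2 * s) * C * ((1 + ‖x - y‖) * hk s (x - y)) := by
            apply mul_le_mul (mul_le_mul_of_nonneg_left (hC y) (by positivity)) h3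
              (mul_nonneg (norm_nonneg _) (hk_nonneg hs.le _)) (by positivity)

/-- second order Taylor bound for `P t p`, uniformly in `t ∈ (h, 2h]` and `|p| ≤ 1`. -/
lemma taylor {h : ℝ} (hh : 0 < h) : ∃ C : ℝ, 0 ≤ C ∧ ∀ (p : V → ℝ), Measurable p → (∀ x, |p x| ≤ 1) →
    ∀ t ∈ Ioc h (2 * h), ∀ (x y : V) (L : V →L[ℝ] ℝ), HasFDerivAt (𝕜 := ℝ) (P t p) L x →
    L (x - y) - C * ‖x - y‖ ^ 2 ≤ P t p x - P t p y := by
  have hs : 0 < h / 2 := by positivity
  obtain ⟨D, hD0, hD⟩ := grad_bound (V := V) hs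
  refine ⟨D * D, mul_nonneg hD0 hD0, fun p hp hp1 t ht x y L hL => ?_⟩
  have hth : 0 < t - h := by linarith [ht.1]
  set g : V → ℝ := P (t - h) p with hg
  have hgm : AEStronglyMeasurable g volume := aesm_P hp.aestronglyMeasurable
  have hg1 : ∀ x, |g x| ≤ 1 := abs_P_le hth hp1
  set G : V → ℝ := P (h / 2) g with hG
  have hG1 : ∀ x, |G x| ≤ 1 := abs_P_le hs hg1
  -- `P t p = P (h/2) G`
  have hPt : P t p = P (h / 2) G := by
    ext w
    have e1 : G = P (t - h / 2) p := by
      ext v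
      rw [hG, hg, P_P hs hth hp.aestronglyMeasurable hp1]
      congr 1; ring
    rw [e1, P_P hs (by linarith) hp.aestronglyMeasurable hp1]
    congr 1; ring
  choose LG hLG hLGn using fun x => hD g hgm 1 hg1 x
  simp only [one_mul] at hLGn
  have hLGf : LG = fderiv ℝ G := by
    ext1 x; exact (hLG x).fderiv.symm
  have hLGm : Measurable LG := by rw [hLGf]; exact measurable_fderiv ℝ G
  set γ : V → V := fun x => (InnerProductSpace.toDual ℝ V).symm (LG x) with hγ
  have hγm : Measurable γ := (InnerProductSpace.toDual ℝ V).symm.continuous.measurable.comp hLGm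
  have hγn : ∀ x, ‖γ x‖ ≤ D := fun x => by
    rw [hγ]; simp only [LinearIsometryEquiv.norm_map]; exact hLGn x
  have hγi : ∀ x, (innerSL ℝ (γ x) : V →L[ℝ] ℝ) = LG x := by
    intro x
    ext w
    simp [hγ]
  have hd : ∀ x, HasFDerivAt (𝕜 := ℝ) G (innerSL ℝ (γ x) : V →L[ℝ] ℝ) x := fun x => by
    rw [hγi]; exact hLG x
  have hP' : ∀ x, HasFDerivAt (𝕜 := ℝ) (P t p)
      (∫ y, hk (h / 2) (x - y) • (innerSL ℝ (γ y) : V →L[ℝ] ℝ)) x := fun x => by
    rw [hPt]
    exact hasFDerivAt_P_of_grad hs hG1 hγm.aestronglyMeasurable hγn hd x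
  -- the directional derivative
  set w : V := x - y with hw
  set φ : V → ℝ := fun v => inner ℝ (γ v) w with hφ
  have hφm : AEStronglyMeasurable φ volume := by
    exact (hγm.inner measurable_const).aestronglyMeasurable
  have hφ1 : ∀ v, |φ v| ≤ D * ‖w‖ := fun v =>
    (abs_real_inner_le_norm _ _).trans (mul_le_mul_of_nonneg_right (hγn v) (norm_nonneg _))
  have hdir : ∀ x, (∫ y, hk (h / 2) (x - y) • (innerSL ℝ (γ y) : V →L[ℝ] ℝ)) w = P (h / 2) φ x := by
    intro x
    rw [ContinuousLinearMap.integral_apply]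
    · unfold P
      congr 1
    · refine Integrable.mono' ((integrable_hk_sub hs x).mul_const D) ?_
        (Filter.Eventually.of_forall fun y => ?_)
      · exact (Continuous.aestronglyMeasurable (f := fun y : V => hk (h / 2) (x - y)) (by fun_prop)).smul
          ((innerSL ℝ : V →L⋆[ℝ] V →L[ℝ] ℝ).continuous.comp_aestronglyMeasurable hγm.aestronglyMeasurable)
      · rw [norm_smul, innerSL_apply_norm, Real.norm_of_nonneg (hk_nonneg hs.le _)]
        exact mul_le_mul_of_nonneg_left (hγn y) (hk_nonneg hs.le _)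
  -- Lipschitz bound of the directional derivative
  have hlip : ∀ a b : V, |P (h / 2) φ a - P (h / 2) φ b| ≤ D * ‖w‖ * D * ‖a - b‖ := by
    intro a b
    choose M hM hMn using fun x => hD φ hφm (D * ‖w‖) hφ1 x
    have := Convex.norm_image_sub_le_of_norm_hasFDerivWithin_le (𝕜 := ℝ) (f := P (h / 2) φ)
      (f' := M) (s := univ) (C := D * ‖w‖ * D) (fun x _ => (hM x).hasFDerivWithinAt)
      (fun x _ => hMn x) convex_univ (mem_univ b) (mem_univ a)
    rwa [Real.norm_eq_abs] at this
  -- mean value theorem on the segment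
  set ψ : ℝ → ℝ := fun r => P t p (y + r • w) with hψ
  have hψd : ∀ r, HasDerivAt ψ (P (h / 2) φ (y + r • w)) r := by
    intro r
    have h1 : HasDerivAt (fun r : ℝ => y + r • w) w r := by
      have := ((hasDerivAt_id r).smul_const w).const_add y
      simpa using this
    have h2 := (hP' (y + r • w)).comp_hasDerivAt r h1
    rw [hdir] at h2
    exact h2
  obtain ⟨r, hr, hr2⟩ := exists_hasDerivAt_eq_slope ψ (fun r => P (h / 2) φ (y + r • w))
    (zero_lt_one) (continuous_iff_continuousAt.2 fun r => (hψd r).continuousAt).continuousOn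
    (fun r _ => hψd r)
  have hψ1 : ψ 1 = P t p x := by simp [hψ, hw]
  have hψ0 : ψ 0 = P t p y := by simp [hψ]
  rw [hψ1, hψ0, sub_zero, div_one] at hr2
  have hLw : L w = P (h / 2) φ x := by
    rw [← hdir, hL.unique (hP' x)]
  rw [← hr2, hLw]
  have h3 := hlip x (y + r • w)
  have h4 : x - (y + r • w) = (1 - r) • w := by rw [hw]; module
  rw [h4, norm_smul, Real.norm_of_nonneg (by linarith [hr.2])] at h3
  have h5 : D * ‖w‖ * D * ((1 - r) * ‖w‖) ≤ D * D * ‖w‖ ^ 2 := by
    have : D * D * ‖w‖ ^ 2 - D * ‖w‖ * D * ((1 - r) * ‖w‖) = r * (D * D * ‖w‖ ^ 2) := by ring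
    have h6 : 0 ≤ r * (D * D * ‖w‖ ^ 2) := mul_nonneg hr.1.le (by positivity)
    linarith
  linarith [le_abs_self (P (h / 2) φ x - P (h / 2) φ (y + r • w))]

end gen

end Pool.Agent.H82.TF
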