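import Pool.Agent.H99.TF.IVa
import Pool.Agent.H82.TF.ChK

/-!
# PART III: comparison of the Coulomb form with the discretised one
-/

open MeasureTheory Real Set Pool.Agent.H29.TF Filter Topology
open scoped ENNReal

namespace Pool.Agent.H82.TF

/-- contraction in `L²` -/
lemma sq_P_le {t : ℝ} (ht : 0 < t) {g : E3 → ℝ} (hg : Integrable g)
    (hg2 : Integrable (fun x => g x ^ 2)) :
    Integrable (fun x => P t g x ^ 2) ∧ ∫ x, P t g x ^ 2 ≤ ∫ x, g x ^ 2 := by
  have key : ∀ x, P t g x ^ 2 ≤ P t (fun y => g y ^ 2) x := by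
    intro x
    have h1 := integrable_hk_mul' ht hg x
    have h2 := integrable_hk_mul' ht hg2 x
    have h3 : 0 ≤ ∫ y, hk t (x - y) * (g y - P t g x) ^ 2 :=
      integral_nonneg fun y => mul_nonneg (hk_nonneg ht.le _) (sq_nonneg _)
    have h4 : ∫ y, hk t (x - y) * (g y - P t g x) ^ 2 =
        P t (fun y => g y ^ 2) x - P t g x ^ 2 := by
      have e : (fun y => hk t (x - y) * (g y - P t g x) ^ 2) = fun y =>
          (hk t (x - y) * g y ^ 2 - 2 * P t g x * (hk t (x - y) * g y)) +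
            P t g x ^ 2 * hk t (x - y) := by
        ext y; ring
      have i1 : Integrable (fun y => hk t (x - y) * g y ^ 2 -
          2 * P t g x * (hk t (x - y) * g y)) := h2.sub (h1.const_mul _)
      rw [e, integral_add i1 ((integrable_hk_sub ht x).const_mul _),
        integral_sub h2 (h1.const_mul _), integral_const_mul, integral_const_mul,
        integral_hk_sub ht]
      unfold P
      ring
    linarith
  have hi : Integrable (P t (fun y => g y ^ 2)) := integrable_P ht hg2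
  have hi2 : Integrable (fun x => P t g x ^ 2) := by
    refine hi.mono' ((aesm_P hg.aestronglyMeasurable).pow 2) (Eventually.of_forall fun x => ?_)
    rw [Real.norm_of_nonneg (sq_nonneg _)]
    exact key x
  refine ⟨hi2, ?_⟩
  rw [← integral_P ht hg2]
  exact integral_mono hi2 hi key

/-- the quadratic form of the heat semigroup -/
noncomputable def qf2 (s : E3 → ℝ) (t : ℝ) : ℝ := ∫ x, s x * P t s x

lemma qf2_eq {s : E3 → ℝ} (hs : Integrable s) {t : ℝ} (ht : 0 < t) :
    qf2 s t = ∫ x, P (t / 2) s x ^ 2 := by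
  have h2 : 0 < t / 2 := by positivity
  have h3 : ∀ x, P t s x = P (t / 2) (P (t / 2) s) x := by
    intro x
    rw [P_P_int h2 h2 hs, add_halves]
  have h4 : ∫ x, s x * P t s x = ∫ x, P (t / 2) (P (t / 2) s) x * s x := by
    congr 1; ext x
    rw [h3, mul_comm]
  unfold qf2
  rw [h4, ← P_selfadj h2 hs (g := P (t / 2) s) (aesm_P hs.aestronglyMeasurable)
    (fun x => abs_P_le_int h2 hs x)]
  congr 1; ext x; ring

lemma qf2_nonneg {s : E3 → ℝ} (hs : Integrable s) {t : ℝ} (ht : 0 < t) : 0 ≤ qf2 s t := by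
  rw [qf2_eq hs ht]
  exact integral_nonneg fun x => sq_nonneg _

lemma qf2_anti {s : E3 → ℝ} (hs : Integrable s) {t t' : ℝ} (ht : 0 < t) (htt : t ≤ t') :
    qf2 s t' ≤ qf2 s t := by
  rcases htt.eq_or_lt with h | h
  · rw [h]
  · rw [qf2_eq hs ht, qf2_eq hs (ht.trans h)]
    have h2 : 0 < t / 2 := by positivity
    have h3 : 0 < (t' - t) / 2 := by linarith
    have e : ∀ x, P (t' / 2) s x = P ((t' - t) / 2) (P (t / 2) s) x := by
      intro x
      rw [P_P_int h3 h2 hs]
      congr 1; ring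
    simp_rw [e]
    have hi := integrable_P h2 hs
    refine (sq_P_le h3 hi ?_).2
    have : Integrable (fun x => P (t / 2) s x * P (t / 2) s x) :=
      hi.bdd_mul (aesm_P hs.aestronglyMeasurable) (Eventually.of_forall fun x =>
        abs_P_le_int h2 hs x)
    refine this.congr (Eventually.of_forall fun x => ?_)
    simp only; ring

lemma qf2_le {s : E3 → ℝ} (hs : Integrable s) (hs2 : Integrable (fun x => s x ^ 2)) {t : ℝ}
    (ht : 0 < t) : qf2 s t ≤ ∫ x, s x ^ 2 := by
  obtain ⟨h1, h2⟩ := sq_P_le ht hs hs2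
  have h3 : qf2 s t ≤ ∫ x, ((1 / 2 : ℝ) * s x ^ 2 + (1 / 2 : ℝ) * P t s x ^ 2) := by
    unfold qf2
    refine integral_mono ?_ ((hs2.const_mul _).add (h1.const_mul _)) fun x => ?_
    · exact hs.mul_bdd (aesm_P hs.aestronglyMeasurable) (Eventually.of_forall fun x =>
        abs_P_le_int ht hs x)
    · simp only
      nlinarith [sq_nonneg (s x - P t s x)]
  rw [integral_add (hs2.const_mul _) (h1.const_mul _), integral_const_mul, integral_const_mul] at h3
  linarith

lemma hasSum_form {h : ℝ} (hh : 0 < h) {f : E3 → ℝ} (hf : Integrable f) :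
    HasSum (fun n : ℕ => 4 * π * h * qf2 f (((n : ℝ) + 1) * h)) (∫ x, f x * Cf h f x) := by
  have h1 := hasSum_integral_of_summable_integral_norm
    (F := fun (n : ℕ) (x : E3) => f x * (4 * π * h * P (((n : ℝ) + 1) * h) f x))
    (μ := volume) (fun n => by
      refine hf.mul_bdd (c := 4 * π * h * (hk (((n : ℝ) + 1) * h) (0 : E3) * ∫ y, ‖f y‖))
        ((aesm_P hf.aestronglyMeasurable).const_mul _) (Filter.Eventually.of_forall fun x => ?_)
      rw [norm_mul, Real.norm_of_nonneg (by positivity : 0 ≤ 4 * π * h)]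
      gcongr
      exact abs_P_le_int (tpos hh n) hf x) (by
      refine Summable.of_nonneg_of_le (fun n => integral_nonneg fun y => norm_nonneg _)
        (fun n => ?_) ((summable_hk_zero hh).mul_right
          (4 * π * h * (∫ y, ‖f y‖) * ∫ y, ‖f y‖))
      have e1 : hk (((n : ℝ) + 1) * h) (0 : E3) * (4 * π * h * (∫ y, ‖f y‖) * ∫ y, ‖f y‖) =
          ∫ x, ‖f x‖ * (4 * π * h * (hk (((n : ℝ) + 1) * h) (0 : E3) * ∫ y, ‖f y‖)) := by
        rw [integral_mul_const]; ring
      rw [e1]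
      refine integral_mono_of_nonneg (Filter.Eventually.of_forall fun x => norm_nonneg _)
        (hf.norm.mul_const _) (Filter.Eventually.of_forall fun x => ?_)
      beta_reduce
      rw [norm_mul, norm_mul (4 * π * h), Real.norm_of_nonneg (by positivity : 0 ≤ 4 * π * h)]
      gcongr
      exact abs_P_le_int (tpos hh n) hf x)
  have h2 : ∫ x, ∑' n : ℕ, f x * (4 * π * h * P (((n : ℝ) + 1) * h) f x) =
      ∫ x, f x * Cf h f x := by
    congr 1; ext x
    rw [tsum_mul_left, (hasSum_Cf hh hf x).tsum_eq]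
  rw [← h2]
  have e : (fun n : ℕ => 4 * π * h * qf2 f (((n : ℝ) + 1) * h)) =
      fun n : ℕ => ∫ x, f x * (4 * π * h * P (((n : ℝ) + 1) * h) f x) := by
    ext n
    unfold qf2
    rw [← integral_const_mul]
    congr 1; ext x; ring
  rw [e]
  exact h1

lemma integral_integral_eq (s : E3 → ℝ) (t : ℝ) :
    ∫ x, ∫ y, s x * s y * hk t (x - y) = qf2 s t := by
  unfold qf2 P
  congr 1; ext x
  rw [← integral_const_mul]
  congr 1; ext y; ring

lemma LQ_congr {f f' g g' : E3 → ℝ≥0∞} (hf : f =ᵐ[volume] f') (hg : g =ᵐ[volume] g') (t : ℝ) :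
    LQ t f g = LQ t f' g' := by
  unfold LQ
  refine lintegral_congr_ae (hf.mono fun x hx => ?_)
  refine lintegral_congr_ae (hg.mono fun y hy => ?_)
  show f x * g y * _ = f' x * g' y * _
  rw [hx, hy]

lemma LQ_ofReal {s : E3 → ℝ} (hs0 : ∀ x, 0 ≤ s x) (hs : Integrable s) {t : ℝ} (ht : 0 < t) :
    LQ t (fun x => ENNReal.ofReal (s x)) (fun x => ENNReal.ofReal (s x)) =
      ENNReal.ofReal (qf2 s t) := by
  rw [← integral_integral_eq]
  have hi : Integrable (fun x => ∫ y, s x * s y * hk t (x - y)) := by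
    have : Integrable (fun x => s x * P t s x) :=
      hs.mul_bdd (aesm_P hs.aestronglyMeasurable) (Eventually.of_forall fun x =>
        abs_P_le_int ht hs x)
    refine this.congr (Eventually.of_forall fun x => ?_)
    simp only
    unfold P
    rw [← integral_const_mul]
    congr 1; ext y; ring
  unfold LQ
  rw [ofReal_integral_eq_lintegral_ofReal hi (Eventually.of_forall fun x =>
    integral_nonneg fun y => mul_nonneg (mul_nonneg (hs0 x) (hs0 y)) (hk_nonneg ht.le _))]
  refine lintegral_congr fun x => ?_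
  have hix : Integrable (fun y => s x * s y * hk t (x - y)) := by
    refine ((integrable_hk_mul' ht hs x).const_mul (s x)).congr (Eventually.of_forall fun y => ?_)
    simp only; ring
  rw [ofReal_integral_eq_lintegral_ofReal hix (Eventually.of_forall fun y =>
    mul_nonneg (mul_nonneg (hs0 x) (hs0 y)) (hk_nonneg ht.le _))]
  refine lintegral_congr fun y => ?_
  rw [← ENNReal.ofReal_mul (hs0 x), ← ENNReal.ofReal_mul (mul_nonneg (hs0 x) (hs0 y))]

lemma ofReal_Coul_eq {s : E3 → ℝ} (hs : Adm s) :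
    ENNReal.ofReal (Coul s s) =
      ENNReal.ofReal (4 * π) * ∫⁻ t in Ioi (0 : ℝ), ENNReal.ofReal (qf2 s t) := by
  rw [ofReal_Coul hs hs]
  obtain ⟨s', hs'm, hs'e⟩ := hs.2.1.aestronglyMeasurable
  have fs : (fun x => ENNReal.ofReal (s x)) =ᵐ[volume] fun x => ENNReal.ofReal (s' x) :=
    hs'e.mono fun x hx => by show ENNReal.ofReal (s x) = _; rw [hx]
  rw [LC_congr fs fs, LC_eq hs'm.measurable.ennreal_ofReal hs'm.measurable.ennreal_ofReal]
  congr 1
  refine setLIntegral_congr_fun measurableSet_Ioi fun t ht => ?_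
  rw [← LQ_congr fs fs, LQ_ofReal hs.1 hs.2.1 ht]

lemma iUnion_Ioc_mul {h : ℝ} (hh : 0 < h) :
    Ioi (0 : ℝ) = ⋃ n : ℕ, Ioc ((n : ℝ) * h) (((n : ℝ) + 1) * h) := by
  ext t
  simp only [mem_Ioi, mem_iUnion, mem_Ioc]
  constructor
  · intro ht
    have hpos : 0 < t / h := div_pos ht hh
    have hc : 0 < ⌈t / h⌉₊ := Nat.ceil_pos.2 hpos
    refine ⟨⌈t / h⌉₊ - 1, ?_, ?_⟩
    · have h1 : ((⌈t / h⌉₊ - 1 : ℕ) : ℝ) < t / h := by
        have := Nat.ceil_lt_add_one hpos.le
        rw [Nat.cast_sub hc]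
        push_cast
        linarith
      rwa [lt_div_iff₀ hh] at h1
    · have h1 : t / h ≤ ((⌈t / h⌉₊ - 1 : ℕ) : ℝ) + 1 := by
        rw [Nat.cast_sub hc]
        push_cast
        have := Nat.le_ceil (t / h)
        linarith
      rwa [div_le_iff₀ hh] at h1
  · rintro ⟨n, h1, h2⟩
    exact lt_of_le_of_lt (by positivity) h1

lemma lintegral_split {h : ℝ} (hh : 0 < h) (φ : ℝ → ℝ≥0∞) :
    ∫⁻ t in Ioi (0 : ℝ), φ t = ∑' n : ℕ, ∫⁻ t in Ioc ((n : ℝ) * h) (((n : ℝ) + 1) * h), φ t := by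
  rw [iUnion_Ioc_mul hh]
  refine lintegral_iUnion (fun n => measurableSet_Ioc) ?_ _
  intro m n hmn
  rcases lt_or_gt_of_ne hmn with h1 | h1
  · refine Set.disjoint_left.2 fun t ht ht' => ?_
    have h2 : ((m : ℝ) + 1) ≤ n := by exact_mod_cast h1
    have := mul_le_mul_of_nonneg_right h2 hh.le
    linarith [ht.2, ht'.1]
  · refine Set.disjoint_left.2 fun t ht ht' => ?_
    have h2 : ((n : ℝ) + 1) ≤ m := by exact_mod_cast h1
    have := mul_le_mul_of_nonneg_right h2 hh.le
    linarith [ht.1, ht'.2]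

lemma vol_Ioc (n : ℕ) (h : ℝ) :
    volume (Ioc ((n : ℝ) * h) (((n : ℝ) + 1) * h)) = ENNReal.ofReal h := by
  rw [Real.volume_Ioc]; congr 1; ring

/-- **Left half of the sandwich.** -/
theorem Ch_le_Coul {h : ℝ} (hh : 0 < h) {s : E3 → ℝ} (hs : Adm s) :
    ∫ x, s x * Cf h s x ≤ Coul s s := by
  have h0 := Coul_nonneg hs hs
  rw [← ENNReal.ofReal_le_ofReal_iff h0, ofReal_Coul_eq hs, lintegral_split hh,
    ← (hasSum_form hh hs.2.1).tsum_eq, ENNReal.ofReal_tsum_of_nonneg (fun n =>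
      mul_nonneg (by positivity) (qf2_nonneg hs.2.1 (tpos hh n))) (hasSum_form hh hs.2.1).summable,
    ← ENNReal.tsum_mul_left]
  refine ENNReal.tsum_le_tsum fun n => ?_
  rw [mul_assoc, ENNReal.ofReal_mul (by positivity)]
  gcongr
  rw [ENNReal.ofReal_mul hh.le, mul_comm, ← vol_Ioc n h, ← setLIntegral_const]
  refine setLIntegral_mono_ae' measurableSet_Ioc (Eventually.of_forall fun t ht => ?_)
  refine ENNReal.ofReal_le_ofReal (qf2_anti hs.2.1 ?_ ht.2)
  exact lt_of_le_of_lt (by positivity) ht.1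

/-- **Right half of the sandwich.** -/
theorem Coul_le_Ch {h : ℝ} (hh : 0 < h) {s : E3 → ℝ} (hs : Adm2 s) :
    Coul s s ≤ 4 * π * h * (∫ x, s x ^ 2) + ∫ x, s x * Cf h s x := by
  have hs1 := hs.1.2.1
  have hI : 0 ≤ ∫ x, s x ^ 2 := integral_nonneg fun x => sq_nonneg _
  have hC : 0 ≤ ∫ x, s x * Cf h s x := Cf_form_nonneg hh hs1
  rw [← ENNReal.ofReal_le_ofReal_iff (by positivity), ofReal_Coul_eq hs.1, lintegral_split hh,
    ENNReal.ofReal_add (by positivity) hC,
    ← (hasSum_form hh hs1).tsum_eq, ENNReal.ofReal_tsum_of_nonneg (fun n =>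
      mul_nonneg (by positivity) (qf2_nonneg hs1 (tpos hh n))) (hasSum_form hh hs1).summable,
    tsum_eq_zero_add' ENNReal.summable, mul_add]
  refine add_le_add ?_ ?_
  · have e : ENNReal.ofReal (4 * π * h * ∫ x, s x ^ 2) =
        ENNReal.ofReal (4 * π) * (ENNReal.ofReal (∫ x, s x ^ 2) * ENNReal.ofReal h) := by
      rw [mul_comm (ENNReal.ofReal (∫ x, s x ^ 2)), ← ENNReal.ofReal_mul hh.le,
        ← ENNReal.ofReal_mul (by positivity), mul_assoc]
    rw [e]
    gcongr
    rw [← vol_Ioc 0 h, ← setLIntegral_const]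
    refine setLIntegral_mono_ae' measurableSet_Ioc (Eventually.of_forall fun t ht => ?_)
    refine ENNReal.ofReal_le_ofReal (qf2_le hs1 hs.2 ?_)
    exact lt_of_le_of_lt (by positivity) ht.1
  · rw [← ENNReal.tsum_mul_left]
    refine ENNReal.tsum_le_tsum fun n => ?_
    have e : ENNReal.ofReal (4 * π * h * qf2 s (((n : ℝ) + 1) * h)) =
        ENNReal.ofReal (4 * π) * (ENNReal.ofReal (qf2 s (((n : ℝ) + 1) * h)) *
          ENNReal.ofReal h) := by
      rw [mul_comm (ENNReal.ofReal (qf2 s (((n : ℝ) + 1) * h))), ← ENNReal.ofReal_mul hh.le,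
        ← ENNReal.ofReal_mul (by positivity), mul_assoc]
    rw [e]
    gcongr
    rw [← vol_Ioc (n + 1) h, ← setLIntegral_const]
    refine setLIntegral_mono_ae' measurableSet_Ioc (Eventually.of_forall fun t ht => ?_)
    refine ENNReal.ofReal_le_ofReal (qf2_anti hs1 (tpos hh n) ?_)
    have := ht.1
    push_cast at this
    exact this.le

/-- comparison of the potentials -/
lemma vh_le_inv {h : ℝ} (hh : 0 < h) {x : E3} (hx : x ≠ 0) : vh h x ≤ 1 / ‖x‖ := by
  rw [← integral_hk_Ioi hx]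
  unfold vh
  refine mul_le_mul_of_nonneg_left ?_ (by positivity)
  refine setIntegral_mono_set (integrableOn_hk_Ioi hx) ?_ ?_
  · exact (ae_restrict_iff' measurableSet_Ioi).2
      (Filter.Eventually.of_forall fun t ht => hk_nonneg (le_of_lt ht) x)
  · exact (Ioi_subset_Ioi hh.le).eventuallyLE

variable {k : ℕ}

lemma vh_att_le {h : ℝ} (hh : 0 < h) {z : Fin k → ℝ} (hz : ∀ i, 0 ≤ z i) (R : Fin k → E3)
    (l : ℝ) {s : E3 → ℝ} (hs : Adm s) :
    ∫ x, (∑ i, z i * vh h (x - l • R i)) * s x ≤ Att z R l s := by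
  unfold Att
  have hb : ∀ x, ‖∑ i, z i * vh h (x - l • R i)‖ ≤ (∑ i, z i) * vh h 0 := by
    intro x
    rw [Real.norm_of_nonneg (Finset.sum_nonneg fun i _ => mul_nonneg (hz i) (vh_nonneg hh _)),
      Finset.sum_mul]
    exact Finset.sum_le_sum fun i _ => mul_le_mul_of_nonneg_left (vh_le_zero hh _) (hz i)
  have hm : Measurable (fun x : E3 => ∑ i, z i * vh h (x - l • R i)) :=
    Finset.measurable_sum _ fun i _ =>
      ((measurable_vh h).comp (measurable_id.sub_const _)).const_mul _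
  refine integral_mono_ae (hs.2.1.bdd_mul hm.aestronglyMeasurable (Eventually.of_forall hb))
    (integrable_att z R l hs) ?_
  have hne : ∀ᵐ x : E3, ∀ i, x ≠ l • R i := by
    rw [ae_all_iff]
    intro i
    refine (ae_ne_prod (l • R i)).mono fun x hx => hx.symm
  filter_upwards [hne] with x hx
  refine mul_le_mul_of_nonneg_right (Finset.sum_le_sum fun i _ => ?_) (hs.1 x)
  have := mul_le_mul_of_nonneg_left (vh_le_inv hh (sub_ne_zero.2 (hx i))) (hz i)
  rwa [mul_one_div] at this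

/-- **F ≤ Fh** -/
theorem F_le_Fh {z : Fin k → ℝ} (hz : ∀ i, 0 ≤ z i) (R : Fin k → E3) (h : ℝ) (hh : 0 < h)
    (μ l : ℝ) (s : E3 → ℝ) (hs : Adm2 s) : F z R μ l s ≤ Fh h z R μ l s := by
  rw [F_eq]
  unfold Fh Kin
  have h1 := vh_att_le hh hz R l hs.1
  have h2 := Coul_le_Ch hh hs
  rw [integral_integral_Ch]
  linarith

/-- upper bound for the discretised Coulomb term -/
theorem Ch_form_le {h : ℝ} (hh : 0 < h) {s : E3 → ℝ} (hs : Adm s) :
    ∫ x, (∫ y, s x * s y * Ch h (x - y)) ≤ Coul s s := by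
  rw [integral_integral_Ch]
  exact Ch_le_Coul hh hs

end Pool.Agent.H82.TF
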